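import Mathlib

set_option autoImplicit false

namespace Pool.Agent.Results.MP_c183ae_nt.OddPartBound


/-- If `r` is an odd prime with `s * y ≡ 2^j (mod r)`, then among any `orderOf 2` consecutive members
of the sequence `2^i y - s` one is divisible by `r`. -/
theorem exists_dvd {r : ℕ} (hr : r.Prime) (hr2 : r ≠ 2) {s y : ℤ} (hs : s = 1 ∨ s = -1) {j : ℕ}
    (hj : (r : ℤ) ∣ s * y - 2 ^ j) (a : ℕ) :
    ∃ i, i < orderOf (2 : ZMod r) ∧ (r : ℤ) ∣ 2 ^ (a + i) * y - s := by
  have : Fact r.Prime := ⟨hr⟩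
  set d := orderOf (2 : ZMod r) with hd
  have h2 : (2 : ZMod r) ≠ 0 := by
    intro h
    have h1 : ((2 : ℕ) : ZMod r) = 0 := by exact_mod_cast h
    rw [ZMod.natCast_eq_zero_iff] at h1
    exact hr2 ((Nat.prime_dvd_prime_iff_eq hr Nat.prime_two).mp h1)
  have hdpos : 0 < d := by
    rw [hd]
    exact orderOf_pos_iff.mpr (isOfFinOrder_iff_pow_eq_one.mpr ⟨r - 1, by
      have := hr.two_le; omega, ZMod.pow_card_sub_one_eq_one h2⟩)
  -- choose i with d ∣ a + i + j
  refine ⟨(d - (a + j) % d) % d, Nat.mod_lt _ hdpos, ?_⟩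
  set i := (d - (a + j) % d) % d with hi
  have hdvd : d ∣ a + i + j := by
    have h3 : (a + i + j) % d = 0 := by
      have h4 : a + i + j = (a + j) + i := by ring
      rw [h4, hi, Nat.add_mod_mod, ← Nat.mod_add_mod]
      have h5 : (a + j) % d < d := Nat.mod_lt _ hdpos
      rw [Nat.add_sub_cancel' h5.le, Nat.mod_self]
    exact Nat.dvd_of_mod_eq_zero h3
  have hpow : (2 : ZMod r) ^ (a + i + j) = 1 := by
    obtain ⟨c, hc⟩ := hdvd
    rw [hc, pow_mul, hd, pow_orderOf_eq_one, one_pow]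
  have hjz : (s : ZMod r) * y = 2 ^ j := by
    have := (ZMod.intCast_zmod_eq_zero_iff_dvd (s * y - 2 ^ j) r).mpr hj
    push_cast at this
    linear_combination this
  have hss : (s : ZMod r) * s = 1 := by
    rcases hs with rfl | rfl <;> simp
  rw [← ZMod.intCast_zmod_eq_zero_iff_dvd]
  push_cast
  have h6 : (2 : ZMod r) ^ (a + i) * y = s * ((2 : ZMod r) ^ (a + i) * (s * y)) := by
    linear_combination (-(2 : ZMod r) ^ (a + i) * y) * hss
  rw [h6, hjz, ← pow_add, hpow]
  ring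


theorem order_le {r : ℕ} (hr : r.Prime) (hr2 : r ≠ 2) : orderOf (2 : ZMod r) + 1 ≤ r := by
  have : Fact r.Prime := ⟨hr⟩
  have h2 : (2 : ZMod r) ≠ 0 := by
    intro h
    have h1 : ((2 : ℕ) : ZMod r) = 0 := by exact_mod_cast h
    rw [ZMod.natCast_eq_zero_iff] at h1
    exact hr2 ((Nat.prime_dvd_prime_iff_eq hr Nat.prime_two).mp h1)
  have h3 := orderOf_dvd_of_pow_eq_one (ZMod.pow_card_sub_one_eq_one h2)
  have h4 := hr.two_le
  have h5 := Nat.le_of_dvd (by omega) h3
  omega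

/-- closed form of the two recurrences -/
theorem closed_first {k : ℕ} {q : ℕ → ℕ} (h : ∀ i, i + 1 < k → q (i + 1) = 2 * q i + 1) {a y : ℕ}
    (h0 : q 0 + 1 = 2 ^ a * y) : ∀ i, i < k → q i + 1 = 2 ^ (a + i) * y := by
  intro i
  induction i with
  | zero => intro _; simpa using h0
  | succ i ih =>
    intro hi
    have h1 := ih (by omega)
    have h2 := h i hi
    have h3 : 2 ^ (a + (i + 1)) * y = 2 * (2 ^ (a + i) * y) := by ring
    omega

theorem closed_second {k : ℕ} {q : ℕ → ℕ} (h : ∀ i, i + 1 < k → q (i + 1) + 1 = 2 * q i) {a y : ℕ}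
    (h0 : q 0 = 2 ^ a * y + 1) : ∀ i, i < k → q i = 2 ^ (a + i) * y + 1 := by
  intro i
  induction i with
  | zero => intro _; simpa using h0
  | succ i ih =>
    intro hi
    have h1 := ih (by omega)
    have h2 := h i hi
    have h3 : 2 ^ (a + (i + 1)) * y = 2 * (2 ^ (a + i) * y) := by ring
    omega

/-- Pointwise length bounds for Cunningham chains in terms of the odd part `y` of `q 0 + 1`
(first kind) or of `q 0 - 1` (second kind). -/
theorem result (k : ℕ) (_hk : 1 ≤ k) (q : ℕ → ℕ) (hq : ∀ i < k, (q i).Prime) (a y : ℕ) (hy : Odd y) :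
    ((∀ i, i + 1 < k → q (i + 1) = 2 * q i + 1) → q 0 + 1 = 2 ^ a * y →
      (∀ j r : ℕ, r.Prime → r ≠ 2 → r + 1 < y → (r : ℤ) ∣ (y : ℤ) - 2 ^ j →
        k < orderOf (2 : ZMod r)) ∧
      (∀ j : ℕ, 1 ≤ j → 2 ^ j < y → y - 2 ^ j ≠ 1 → ¬ (y - 2 ^ j).Prime →
        (k + 2) ^ 2 ≤ y - 2 ^ j)) ∧
    ((∀ i, i + 1 < k → q (i + 1) + 1 = 2 * q i) → q 0 = 2 ^ a * y + 1 →
      (∀ j r : ℕ, r.Prime → r ≠ 2 → r ≤ 2 * y → (r : ℤ) ∣ (y : ℤ) + 2 ^ j →
        k < orderOf (2 : ZMod r)) ∧
      (∀ j : ℕ, 1 ≤ j → 2 ^ j ≤ y ^ 2 → ¬ (y + 2 ^ j).Prime → (k + 2) ^ 2 ≤ y + 2 ^ j)) := by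
  have hypos : 0 < y := hy.pos
  constructor
  · intro hrec h0
    have hcf := closed_first hrec h0
    have main : ∀ j r : ℕ, r.Prime → r ≠ 2 → r + 1 < y → (r : ℤ) ∣ (y : ℤ) - 2 ^ j →
        k < orderOf (2 : ZMod r) := by
      intro j r hr hr2 hry hdvd
      by_contra hcon
      push Not at hcon
      obtain ⟨i, hi, hd⟩ := exists_dvd hr hr2 (s := 1) (y := y) (Or.inl rfl) (j := j)
        (by simpa using hdvd) a
      have hik : i < k := lt_of_lt_of_le hi hcon
      have h1 : (q i : ℤ) = 2 ^ (a + i) * y - 1 := by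
        have : ((q i + 1 : ℕ) : ℤ) = ((2 ^ (a + i) * y : ℕ) : ℤ) := by rw [hcf i hik]
        push_cast at this
        linarith
      rw [← h1] at hd
      have hd' : r ∣ q i := by exact_mod_cast hd
      have heq : r = q i := (Nat.prime_dvd_prime_iff_eq hr (hq i hik)).mp hd'
      have h2 := hcf i hik
      have h3 : y ≤ 2 ^ (a + i) * y := Nat.le_mul_of_pos_left y (by positivity)
      omega
    refine ⟨main, ?_⟩
    intro j hj hjy hne1 hnp
    have hj2 : 2 ≤ 2 ^ j := by
      calc 2 = 2 ^ 1 := by norm_num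
        _ ≤ 2 ^ j := Nat.pow_le_pow_right (by norm_num) hj
    set n := y - 2 ^ j with hn
    have hn2 : 2 ≤ n := by omega
    have hp := Nat.minFac_prime hne1
    have hsq := Nat.minFac_sq_le_self (by omega) hnp
    have hnodd : Odd n := by
      rw [hn]
      apply Nat.Odd.sub_even hjy.le hy
      exact (even_two).pow_of_ne_zero (by omega)
    have hmf2 : n.minFac ≠ 2 := by
      intro h
      have : 2 ∣ n := h ▸ Nat.minFac_dvd n
      exact (Nat.not_even_iff_odd.mpr hnodd) (even_iff_two_dvd.mpr this)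
    have hmfn : n.minFac ≤ n := Nat.minFac_le (by omega)
    have hltn : n.minFac < n := by
      rcases hmfn.lt_or_eq with h | h
      · exact h
      · exfalso
        rw [h] at hp
        exact hnp hp
    have hdv : (n.minFac : ℤ) ∣ (y : ℤ) - 2 ^ j := by
      have h1 : ((n : ℕ) : ℤ) = (y : ℤ) - 2 ^ j := by
        rw [hn]
        push_cast [Nat.cast_sub hjy.le]
        ring
      rw [← h1]
      exact_mod_cast Nat.minFac_dvd n
    have h1 := main j n.minFac hp hmf2 (by omega) hdv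
    have h2 := order_le hp hmf2
    calc (k + 2) ^ 2 ≤ n.minFac ^ 2 := Nat.pow_le_pow_left (by omega) 2
      _ ≤ n := hsq
  · intro hrec h0
    have hcf := closed_second hrec h0
    have main : ∀ j r : ℕ, r.Prime → r ≠ 2 → r ≤ 2 * y → (r : ℤ) ∣ (y : ℤ) + 2 ^ j →
        k < orderOf (2 : ZMod r) := by
      intro j r hr hr2 hry hdvd
      by_contra hcon
      push Not at hcon
      obtain ⟨i, hi, hd⟩ := exists_dvd hr hr2 (s := -1) (y := y) (Or.inr rfl) (j := j)
        (by
          have h1 : (-1 : ℤ) * y - 2 ^ j = -((y : ℤ) + 2 ^ j) := by ring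
          rw [h1]
          exact (dvd_neg).mpr hdvd) a
      have hik : i < k := lt_of_lt_of_le hi hcon
      have h1 : (q i : ℤ) = 2 ^ (a + i) * y - -1 := by
        have : ((q i : ℕ) : ℤ) = ((2 ^ (a + i) * y + 1 : ℕ) : ℤ) := by rw [hcf i hik]
        push_cast at this
        linarith
      rw [← h1] at hd
      have hd' : r ∣ q i := by exact_mod_cast hd
      have heq : r = q i := (Nat.prime_dvd_prime_iff_eq hr (hq i hik)).mp hd'
      have h2 := hcf i hik
      rcases Nat.eq_zero_or_pos (a + i) with h3 | h3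
      · rw [h3, pow_zero, one_mul] at h2
        obtain ⟨c, hc⟩ := hy
        have h4 : 2 ∣ q i := ⟨c + 1, by omega⟩
        have h5 : 2 = q i := (Nat.prime_dvd_prime_iff_eq Nat.prime_two (hq i hik)).mp h4
        exact hr2 (by omega)
      · have h4 : 2 * y ≤ 2 ^ (a + i) * y := by
          apply Nat.mul_le_mul_right
          calc 2 = 2 ^ 1 := by norm_num
            _ ≤ 2 ^ (a + i) := Nat.pow_le_pow_right (by norm_num) h3
        omega
    refine ⟨main, ?_⟩
    intro j hj hjy hnp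
    set n := y + 2 ^ j with hn
    have hj2 : 2 ≤ 2 ^ j := by
      calc 2 = 2 ^ 1 := by norm_num
        _ ≤ 2 ^ j := Nat.pow_le_pow_right (by norm_num) hj
    have hne1 : n ≠ 1 := by omega
    have hp := Nat.minFac_prime hne1
    have hsq := Nat.minFac_sq_le_self (by omega) hnp
    have hnodd : Odd n := by
      rw [hn]
      apply Odd.add_even hy
      exact (even_two).pow_of_ne_zero (by omega)
    have hmf2 : n.minFac ≠ 2 := by
      intro h
      have : 2 ∣ n := h ▸ Nat.minFac_dvd n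
      exact (Nat.not_even_iff_odd.mpr hnodd) (even_iff_two_dvd.mpr this)
    have hle : n.minFac ≤ 2 * y := by
      by_contra hcon
      push Not at hcon
      have h1 : (2 * y + 1) ^ 2 ≤ n.minFac ^ 2 := Nat.pow_le_pow_left hcon 2
      nlinarith
    have hdv : (n.minFac : ℤ) ∣ (y : ℤ) + 2 ^ j := by
      have h1 : ((n : ℕ) : ℤ) = (y : ℤ) + 2 ^ j := by
        rw [hn]
        push_cast
        ring
      rw [← h1]
      exact_mod_cast Nat.minFac_dvd n
    have h1 := main j n.minFac hp hmf2 hle hdv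
    have h2 := order_le hp hmf2
    calc (k + 2) ^ 2 ≤ n.minFac ^ 2 := Nat.pow_le_pow_left (by omega) 2
      _ ≤ n := hsq

end Pool.Agent.Results.MP_c183ae_nt.OddPartBound
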