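import Pool.Agent.H22.TOne

/-!
Many primes `p` for which `p + 1` (or `p - 1`) has the same odd part `y`, for a positive proportion
of all odd `y`.

Supporting files (all in `Pool/Agent/H22`): a fundamental lemma of sieve theory, equidistribution of
rough numbers, mean values of Dirichlet polynomials over characters, a Linnik type theorem for the
moduli `2^k W`, Romanov's sum, first and second moments.
-/

set_option autoImplicit false

open Finset Real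

namespace Pool.Agent.Results.MP_c183ae_nt.PrimesSharingOddPart

/-- The exponents `1 ≤ i ≤ ε log y` for which `2 ^ i * y - 1` is prime. -/
noncomputable def expMinus (ε : ℝ) (y : ℕ) : Finset ℕ :=
  {i ∈ Finset.Icc 1 ⌊ε * Real.log y⌋₊ | (2 ^ i * y - 1).Prime}

/-- The exponents `1 ≤ i ≤ ε log y` for which `2 ^ i * y + 1` is prime. -/
noncomputable def expPlus (ε : ℝ) (y : ℕ) : Finset ℕ :=
  {i ∈ Finset.Icc 1 ⌊ε * Real.log y⌋₊ | (2 ^ i * y + 1).Prime}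

open Pool.Agent.H22 in
theorem expMinus_eq (ε : ℝ) (y : ℕ) (hy : 1 ≤ y) :
    expMinus ε y = {i ∈ Finset.Icc 1 ⌊ε * Real.log y⌋₊ | (Lf 1 i y).Prime} := by
  unfold expMinus
  apply Finset.filter_congr
  intro i _
  have h : 2 ^ i * y - 1 = Lf 1 i y := by
    have h1 := Lf_coe 1 (Or.inl rfl) i y hy
    have h2 : 1 ≤ 2 ^ i * y := Nat.one_le_iff_ne_zero.mpr (Nat.mul_ne_zero (by positivity) (by omega))
    have h3 : ((2 ^ i * y - 1 : ℕ) : ℤ) = (2 : ℤ) ^ i * y - 1 := by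
      rw [Nat.cast_sub h2]; push_cast; ring
    exact_mod_cast h3.trans h1.symm
  rw [h]

open Pool.Agent.H22 in
theorem expPlus_eq (ε : ℝ) (y : ℕ) (hy : 1 ≤ y) :
    expPlus ε y = {i ∈ Finset.Icc 1 ⌊ε * Real.log y⌋₊ | (Lf (-1) i y).Prime} := by
  unfold expPlus
  apply Finset.filter_congr
  intro i _
  have h : 2 ^ i * y + 1 = Lf (-1) i y := by
    have h1 := Lf_coe (-1) (Or.inr rfl) i y hy
    have h3 : ((2 ^ i * y + 1 : ℕ) : ℤ) = (2 : ℤ) ^ i * y - (-1) := by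
      push_cast; ring
    exact_mod_cast h3.trans h1.symm
  rw [h]

open Pool.Agent.H22 in
theorem EW_eq (W : ℕ) (hW : 1 ≤ W) : EW W = (W : ℝ) / W.totient := by
  have h := EW_mul_totient W
  have hφ : (0 : ℝ) < W.totient := by exact_mod_cast Nat.totient_pos.mpr hW
  rw [eq_div_iff hφ.ne', mul_comm]
  exact h

open Pool.Agent.H22 in
/-- one sign -/
theorem one_sign : ∃ δ : ℝ, 0 < δ ∧ ∀ s : ℤ, s = 1 ∨ s = -1 → ∀ (k : ℕ) (ε : ℝ), 0 < ε → ∃ R : ℝ,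
    ∀ W : ℕ, Odd W → R ≤ (W : ℝ) / W.totient → ∃ Y0 : ℕ, ∀ Y : ℕ, Y0 ≤ Y →
      δ * ((Y : ℝ) / W) ≤ ((#{y ∈ Finset.Icc 1 Y | Odd y ∧ W ∣ y ∧
        k ≤ #{i ∈ Finset.Icc 1 ⌊ε * Real.log y⌋₊ | (Lf s i y).Prime}} : ℕ) : ℝ) := by
  obtain ⟨δ0, hδ0, h⟩ := tone_gen
  refine ⟨δ0 / 2, by positivity, ?_⟩
  intro s hs k ε hε
  obtain ⟨c, R, hc, hR⟩ := h s hs ε hε
  refine ⟨max R (k / c), ?_⟩
  intro W hWodd hWR
  have hW : W % 2 = 1 := Nat.odd_iff.mp hWodd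
  have hW1 : 1 ≤ W := by omega
  rw [← EW_eq W hW1] at hWR
  obtain ⟨M2, hM2⟩ := hR W hW ((le_max_left _ _).trans hWR)
  have hkc : (k : ℝ) ≤ c * EW W := by
    have h1 := (le_max_right R (k / c)).trans hWR
    rw [div_le_iff₀ hc] at h1
    linarith
  have hWr : (1 : ℝ) ≤ W := by exact_mod_cast hW1
  refine ⟨W * (M2 + 1), ?_⟩
  intro Y hY
  set M := Y / W with hM
  have hMge : M2 + 1 ≤ M := by
    rw [hM, Nat.le_div_iff_mul_le (by omega), mul_comm]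
    exact hY
  have h1 := hM2 M (by omega)
  classical
  have hinj : #{m ∈ Finset.Icc 1 M | m % 2 = 1 ∧
        c * EW W ≤ ((#{i ∈ Finset.Icc 1 ⌊ε * Real.log ((W * m : ℕ) : ℝ)⌋₊ | (Lf s i (W * m)).Prime} : ℕ) : ℝ)} ≤
      #{y ∈ Finset.Icc 1 Y | Odd y ∧ W ∣ y ∧
        k ≤ #{i ∈ Finset.Icc 1 ⌊ε * Real.log y⌋₊ | (Lf s i y).Prime}} := by
    apply Finset.card_le_card_of_injOn (fun m => W * m)
    · intro m hm
      simp only [Finset.coe_filter, Finset.mem_Icc, Set.mem_ofPred_eq] at hm ⊢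
      obtain ⟨⟨hm1, hmM⟩, hmodd, hk⟩ := hm
      have hk' : k ≤ #{i ∈ Finset.Icc 1 ⌊ε * Real.log ((W * m : ℕ) : ℝ)⌋₊ | (Lf s i (W * m)).Prime} := by
        exact_mod_cast hkc.trans hk
      refine ⟨⟨Nat.one_le_iff_ne_zero.mpr (Nat.mul_ne_zero (by omega) (by omega)), ?_⟩, ?_, dvd_mul_right _ _, hk'⟩
      · calc W * m ≤ W * M := Nat.mul_le_mul_left W hmM
          _ ≤ Y := by rw [hM]; exact Nat.mul_div_le Y W
      · rw [Nat.odd_iff, Nat.mul_mod, hW, hmodd]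
    · intro m _ m' _ h
      exact Nat.eq_of_mul_eq_mul_left (by omega) h
  have hinj' := (Nat.cast_le (α := ℝ)).mpr hinj
  refine le_trans ?_ (h1.trans ?_)
  · -- Y/W ≤ 2 M
    have hYM : (Y : ℝ) / W ≤ 2 * M := by
      rw [div_le_iff₀ (by linarith)]
      have h1 : Y < W * (M + 1) := by
        rw [hM]
        exact Nat.lt_mul_div_succ Y (show 0 < W by omega)
      have h2 : (Y : ℝ) ≤ W * (M + 1) := by exact_mod_cast h1.le
      have h3 : (1 : ℝ) ≤ M := by exact_mod_cast (by omega : 1 ≤ M)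
      nlinarith
    calc δ0 / 2 * (Y / W) ≤ δ0 / 2 * (2 * M) := by gcongr
      _ = δ0 * M := by ring
  · convert hinj'

open Pool.Agent.H22 in
/-- **Main theorem.** There is an absolute `δ > 0` such that for every `k` and every `ε > 0`, for every
odd `W` with `W/φ(W)` large enough (and such `W` exist) and all large `Y`: at least `δ Y/W` odd multiples
`y ≤ Y` of `W` have at least `k` exponents `1 ≤ i ≤ ε log y` with `2^i y - 1` prime, and at least `δ Y/W` of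
them have at least `k` such exponents with `2^i y + 1` prime. -/
theorem result : ∃ δ : ℝ, 0 < δ ∧ ∀ (k : ℕ) (ε : ℝ), 0 < ε → ∃ R : ℝ,
    (∃ W : ℕ, Odd W ∧ R ≤ (W : ℝ) / W.totient) ∧
    ∀ W : ℕ, Odd W → R ≤ (W : ℝ) / W.totient → ∃ Y0 : ℕ, ∀ Y : ℕ, Y0 ≤ Y →
      δ * ((Y : ℝ) / W) ≤ ((#{y ∈ Finset.Icc 1 Y | Odd y ∧ W ∣ y ∧ k ≤ (expMinus ε y).card} : ℕ) : ℝ) ∧
      δ * ((Y : ℝ) / W) ≤ ((#{y ∈ Finset.Icc 1 Y | Odd y ∧ W ∣ y ∧ k ≤ (expPlus ε y).card} : ℕ) : ℝ) := by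
  obtain ⟨δ, hδ, h⟩ := one_sign
  refine ⟨δ, hδ, ?_⟩
  intro k ε hε
  obtain ⟨R1, hR1⟩ := h 1 (Or.inl rfl) k ε hε
  obtain ⟨R2, hR2⟩ := h (-1) (Or.inr rfl) k ε hε
  refine ⟨max R1 R2, ?_, ?_⟩
  · obtain ⟨W, hW, hWR⟩ := exists_W (max R1 R2)
    refine ⟨W, Nat.odd_iff.mpr hW, ?_⟩
    rw [← EW_eq W (by omega)]
    exact hWR
  · intro W hW hWR
    obtain ⟨Y1, hY1⟩ := hR1 W hW ((le_max_left _ _).trans hWR)
    obtain ⟨Y2, hY2⟩ := hR2 W hW ((le_max_right _ _).trans hWR)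
    refine ⟨max Y1 Y2, ?_⟩
    intro Y hY
    have e1 : Finset.filter (fun y => Odd y ∧ W ∣ y ∧ k ≤ (expMinus ε y).card) (Finset.Icc 1 Y) =
        Finset.filter (fun y => Odd y ∧ W ∣ y ∧
          k ≤ #{i ∈ Finset.Icc 1 ⌊ε * Real.log y⌋₊ | (Lf 1 i y).Prime}) (Finset.Icc 1 Y) := by
      apply Finset.filter_congr
      intro y hy
      rw [expMinus_eq ε y (Finset.mem_Icc.mp hy).1]
    have e2 : Finset.filter (fun y => Odd y ∧ W ∣ y ∧ k ≤ (expPlus ε y).card) (Finset.Icc 1 Y) =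
        Finset.filter (fun y => Odd y ∧ W ∣ y ∧
          k ≤ #{i ∈ Finset.Icc 1 ⌊ε * Real.log y⌋₊ | (Lf (-1) i y).Prime}) (Finset.Icc 1 Y) := by
      apply Finset.filter_congr
      intro y hy
      rw [expPlus_eq ε y (Finset.mem_Icc.mp hy).1]
    rw [e1, e2]
    exact ⟨hY1 Y ((le_max_left _ _).trans hY), hY2 Y ((le_max_right _ _).trans hY)⟩

end Pool.Agent.Results.MP_c183ae_nt.PrimesSharingOddPart
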