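import Mathlib

set_option autoImplicit false

/-!
Rarity of long Cunningham chains.

The proof is a large sieve argument in which the classes excluded modulo an odd prime `r` are the
elements of the subgroup generated by `2` (or its negatives).  The large sieve inequality is proved
here from scratch in the form `sieve_bound`: a discrete Fejer weight on a long cycle integrates every
function of small period exactly (`wt_sum`), and products of mean-zero functions attached to distinct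
primes are orthogonal for it.  The size of the excluded sets is bounded below by the fact that few
primes `r` have small order of `2` (`small_order_card`).
-/

open Finset

namespace Pool.Agent.Results.MP_c183ae_nt.RareLongChains




/-- mean of `f` over one period `l` -/
noncomputable def mean (l : ℕ) (f : ℕ → ℝ) : ℝ := (∑ b ∈ range l, f b) / l

theorem sum_mul_crt {a b : ℕ} (ha : 0 < a) (hb : 0 < b) (hab : Nat.Coprime a b) (f g : ℕ → ℝ)
    (hf : Function.Periodic f a) (hg : Function.Periodic g b) :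
    ∑ x ∈ range (a * b), f x * g x = (∑ x ∈ range a, f x) * (∑ x ∈ range b, g x) := by
  rw [Finset.sum_mul_sum, ← Finset.sum_product']
  apply Finset.sum_nbij (fun x => (x % a, x % b))
  · intro x _
    simp only [mem_product, mem_range]
    exact ⟨Nat.mod_lt _ ha, Nat.mod_lt _ hb⟩
  · intro x hx x' hx' h
    simp only [coe_range, Set.mem_Iio] at hx hx'
    simp only [Prod.mk.injEq] at h
    have h1 : x ≡ x' [MOD a * b] := (Nat.modEq_and_modEq_iff_modEq_mul hab).mp ⟨h.1, h.2⟩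
    have h2 := h1
    unfold Nat.ModEq at h2
    rwa [Nat.mod_eq_of_lt hx, Nat.mod_eq_of_lt hx'] at h2
  · intro p hp
    simp only [coe_product, coe_range, Set.mem_prod, Set.mem_Iio] at hp
    obtain ⟨k, hk1, hk2⟩ := Nat.chineseRemainder hab p.1 p.2
    refine ⟨k % (a * b), ?_, ?_⟩
    · simp only [coe_range, Set.mem_Iio]
      exact Nat.mod_lt _ (Nat.mul_pos ha hb)
    · ext
      · simp only [Nat.mod_mul_right_mod]
        have : k % a = p.1 % a := hk1
        rw [this, Nat.mod_eq_of_lt hp.1]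
      · simp only [Nat.mod_mul_left_mod]
        have : k % b = p.2 % b := hk2
        rw [this, Nat.mod_eq_of_lt hp.2]
  · intro x _
    simp only
    rw [hf.map_mod_nat, hg.map_mod_nat]

theorem mean_mul {a b : ℕ} (ha : 0 < a) (hb : 0 < b) (hab : Nat.Coprime a b) (f g : ℕ → ℝ)
    (hf : Function.Periodic f a) (hg : Function.Periodic g b) :
    mean (a * b) (fun x => f x * g x) = mean a f * mean b g := by
  unfold mean
  rw [sum_mul_crt ha hb hab f g hf hg]
  have : (a : ℝ) ≠ 0 := by positivity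
  have : (b : ℝ) ≠ 0 := by positivity
  push_cast
  field_simp

theorem mean_prod {ι : Type*} [DecidableEq ι] (s : Finset ι) (l : ι → ℕ) (hl : ∀ i ∈ s, 0 < l i)
    (hc : ∀ i ∈ s, ∀ j ∈ s, i ≠ j → Nat.Coprime (l i) (l j)) (f : ι → ℕ → ℝ)
    (hf : ∀ i ∈ s, Function.Periodic (f i) (l i)) :
    Function.Periodic (fun x => ∏ i ∈ s, f i x) (∏ i ∈ s, l i) ∧
    mean (∏ i ∈ s, l i) (fun x => ∏ i ∈ s, f i x) = ∏ i ∈ s, mean (l i) (f i) := by
  induction s using Finset.induction_on with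
  | empty =>
    refine ⟨fun x => by simp, by simp [mean]⟩
  | insert i s his ih =>
    obtain ⟨ih1, ih2⟩ := ih (fun j hj => hl j (mem_insert_of_mem hj))
      (fun j hj k hk => hc j (mem_insert_of_mem hj) k (mem_insert_of_mem hk))
      (fun j hj => hf j (mem_insert_of_mem hj))
    have hli := hl i (mem_insert_self i s)
    have hfi := hf i (mem_insert_self i s)
    have hpos : 0 < ∏ j ∈ s, l j := Finset.prod_pos (fun j hj => hl j (mem_insert_of_mem hj))
    have hcop : Nat.Coprime (l i) (∏ j ∈ s, l j) := by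
      apply Nat.Coprime.prod_right
      intro j hj
      exact hc i (mem_insert_self i s) j (mem_insert_of_mem hj) (fun h => his (h ▸ hj))
    simp only [Finset.prod_insert his]
    constructor
    · intro x
      have h1 : Function.Periodic (f i) (l i * ∏ j ∈ s, l j : ℕ) := by
        have := hfi.nat_mul (∏ j ∈ s, l j)
        intro x
        have := this x
        simp only [Nat.cast_id] at this
        rw [mul_comm (l i)]
        exact this
      have h2 : Function.Periodic (fun x => ∏ j ∈ s, f j x) (l i * ∏ j ∈ s, l j : ℕ) := by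
        have := ih1.nat_mul (l i)
        intro x
        have := this x
        simp only [Nat.cast_id] at this
        exact this
      have h2' := h2 x
      simp only at h2' ⊢
      rw [h1 x, h2']
    · rw [mean_mul hli hpos hcop (f i) (fun x => ∏ j ∈ s, f j x) hfi ih1, ih2]



/-- discrete Fejer weight -/
noncomputable def wt (M H y : ℕ) : ℝ :=
  ‖∑ h ∈ range H, (Complex.exp (2 * Real.pi * Complex.I / M)) ^ (h * y)‖ ^ 2

theorem wt_nonneg (M H y : ℕ) : 0 ≤ wt M H y := by unfold wt; positivity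

theorem sum_range_split {α : Type*} [AddCommMonoid α] (l m : ℕ) (f : ℕ → α) :
    ∑ y ∈ range (l * m), f y = ∑ b ∈ range l, ∑ t ∈ range m, f (b + l * t) := by
  rw [Finset.sum_comm]
  induction m with
  | zero => simp
  | succ m ih =>
    rw [Finset.sum_range_succ, ← ih, Nat.mul_succ, Finset.sum_range_add]
    congr 1
    apply Finset.sum_congr rfl
    intro b _
    rw [add_comm]

theorem wt_sum {M H l : ℕ} (hM : 0 < M) (hl : l ∣ M) (hlH : l * H ≤ M) (G : ℕ → ℝ)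
    (hG : Function.Periodic G l) :
    ∑ y ∈ range M, wt M H y * G y = (M * H : ℝ) * mean l G := by
  obtain ⟨m, rfl⟩ := hl
  have hl0 : 0 < l := Nat.pos_of_mul_pos_right hM
  have hm0 : 0 < m := Nat.pos_of_mul_pos_left hM
  set ζ : ℂ := Complex.exp (2 * Real.pi * Complex.I / (l * m : ℕ)) with hζ
  have hprim : IsPrimitiveRoot ζ (l * m) := Complex.isPrimitiveRoot_exp _ hM.ne'
  have hnorm : ‖ζ‖ = 1 := hprim.norm'_eq_one hM.ne'
  have hconj : (starRingEnd ℂ) ζ = ζ⁻¹ := by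
    rw [Complex.inv_def, Complex.normSq_eq_norm_sq, hnorm]; simp
  have hζ0 : ζ ≠ 0 := hprim.ne_zero hM.ne'
  -- expansion of the weight
  have hw : ∀ y, ((wt (l * m) H y : ℝ) : ℂ)
      = ∑ h ∈ range H, ∑ h' ∈ range H, (ζ ^ h * (ζ⁻¹) ^ h') ^ y := by
    intro y
    unfold wt
    rw [← hζ, ← Complex.normSq_eq_norm_sq, Complex.normSq_eq_conj_mul_self, map_sum,
      Finset.sum_mul_sum, Finset.sum_comm]
    apply Finset.sum_congr rfl
    intro h _
    apply Finset.sum_congr rfl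
    intro h' _
    rw [map_pow, hconj, mul_pow, ← pow_mul, ← pow_mul]
    ring
  have key : ∀ b, ∑ t ∈ range m, ((wt (l * m) H (b + l * t) : ℝ) : ℂ) = (m * H : ℂ) := by
    intro b
    simp only [hw]
    rw [Finset.sum_comm]
    have h1 : ∀ h ∈ range H, ∑ t ∈ range m, ∑ h' ∈ range H, (ζ ^ h * (ζ⁻¹) ^ h') ^ (b + l * t)
        = (m : ℂ) := by
      intro h hh
      rw [Finset.sum_comm]
      rw [Finset.sum_eq_single_of_mem h hh]
      · have : ζ ^ h * (ζ⁻¹) ^ h = 1 := by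
          rw [← mul_pow, mul_inv_cancel₀ hζ0, one_pow]
        simp only [this, one_pow, Finset.sum_const, Finset.card_range, nsmul_eq_mul, mul_one]
      · intro h' hh' hne
        set z := ζ ^ h * (ζ⁻¹) ^ h' with hz
        have hz1 : z ^ l ≠ 1 := by
          intro hcon
          have h2 : ζ ^ (l * h) = ζ ^ (l * h') := by
            have h3 : ζ ^ (l * h) = z ^ l * ζ ^ (l * h') := by
              rw [hz, mul_pow, ← pow_mul, ← pow_mul, inv_pow, mul_comm h l, mul_comm h' l]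
              field_simp
            rw [h3, hcon, one_mul]
          have h4 : l * h < l * m := by
            have := Finset.mem_range.mp hh
            calc l * h < l * H := Nat.mul_lt_mul_of_pos_left this hl0
              _ ≤ l * m := hlH
          have h5 : l * h' < l * m := by
            have := Finset.mem_range.mp hh'
            calc l * h' < l * H := Nat.mul_lt_mul_of_pos_left this hl0
              _ ≤ l * m := hlH
          have h6 := hprim.pow_inj h4 h5 h2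
          exact hne (Nat.eq_of_mul_eq_mul_left hl0 h6).symm
        have hzm : (z ^ l) ^ m = 1 := by
          have hA : (ζ ^ h) ^ (l * m) = 1 := by
            rw [← pow_mul, mul_comm, pow_mul, hprim.pow_eq_one, one_pow]
          have hB : (ζ⁻¹ ^ h') ^ (l * m) = 1 := by
            rw [← pow_mul, mul_comm, pow_mul, inv_pow, hprim.pow_eq_one, inv_one, one_pow]
          rw [← pow_mul, hz, mul_pow, hA, hB, one_mul]
        have hgeom : ∑ t ∈ range m, z ^ (b + l * t) = z ^ b * ∑ t ∈ range m, (z ^ l) ^ t := by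
          rw [Finset.mul_sum]
          apply Finset.sum_congr rfl
          intro t _
          rw [pow_add, pow_mul]
        rw [hgeom]
        have h7 : (∑ t ∈ range m, (z ^ l) ^ t) * (z ^ l - 1) = 0 := by
          rw [geom_sum_mul, hzm, sub_self]
        have h8 : ∑ t ∈ range m, (z ^ l) ^ t = 0 := by
          rcases mul_eq_zero.mp h7 with h9 | h9
          · exact h9
          · exact absurd (sub_eq_zero.mp h9) hz1
        rw [h8, mul_zero]
    rw [Finset.sum_congr rfl h1]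
    simp [mul_comm]
  have keyR : ∀ b, ∑ t ∈ range m, wt (l * m) H (b + l * t) = (m * H : ℝ) := by
    intro b
    have := key b
    exact_mod_cast this
  rw [sum_range_split]
  have h2 : ∀ b ∈ range l, ∑ t ∈ range m, wt (l * m) H (b + l * t) * G (b + l * t)
      = (m * H : ℝ) * G b := by
    intro b _
    have h3 : ∀ t, G (b + l * t) = G b := by
      intro t
      have := (hG.nat_mul t) b
      simpa [mul_comm] using this
    simp only [h3]
    rw [← Finset.sum_mul, keyR]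
  rw [Finset.sum_congr rfl h2, ← Finset.mul_sum]
  unfold mean
  have : (l : ℝ) ≠ 0 := by positivity
  push_cast
  field_simp

theorem wt_lower {M H X y : ℕ} (hM : 0 < M) (hMX : 6 * X * H ≤ M) (hy : y ≤ X) :
    (H : ℝ) ^ 2 / 4 ≤ wt M H y := by
  unfold wt
  have hre : (H : ℝ) / 2 ≤ (∑ h ∈ range H, (Complex.exp (2 * Real.pi * Complex.I / M)) ^ (h * y)).re := by
    rw [Complex.re_sum]
    have h1 : ∀ h ∈ range H, (1 / 2 : ℝ) ≤
        ((Complex.exp (2 * Real.pi * Complex.I / M)) ^ (h * y)).re := by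
      intro h hh
      rw [← Complex.exp_nat_mul]
      have h2 : ((h * y : ℕ) : ℂ) * (2 * Real.pi * Complex.I / M)
          = ((2 * Real.pi * (h * y) / M : ℝ) : ℂ) * Complex.I := by
        push_cast; ring
      rw [h2, Complex.exp_ofReal_mul_I_re]
      have h3 : (h : ℝ) * y ≤ M / 6 := by
        have h4 : 6 * (h * y) ≤ M := by
          calc 6 * (h * y) ≤ 6 * (H * X) := by
                apply Nat.mul_le_mul_left
                exact Nat.mul_le_mul (Finset.mem_range.mp hh).le hy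
            _ = 6 * X * H := by ring
            _ ≤ M := hMX
        have h5 : (6 : ℝ) * (h * y) ≤ M := by exact_mod_cast h4
        linarith
      have hMr : (0 : ℝ) < M := by exact_mod_cast hM
      have h6 : 2 * Real.pi * (h * y) / M ≤ Real.pi / 3 := by
        rw [div_le_iff₀ hMr]
        nlinarith [Real.pi_pos]
      have h7 : 0 ≤ 2 * Real.pi * (h * y) / M := by positivity
      rw [← Real.cos_pi_div_three]
      apply Real.cos_le_cos_of_nonneg_of_le_pi h7 (by linarith [Real.pi_pos]) h6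
    calc (H : ℝ) / 2 = ∑ h ∈ range H, (1 / 2 : ℝ) := by simp; ring
      _ ≤ _ := Finset.sum_le_sum h1
  have h2 : (H : ℝ) / 2 ≤ ‖∑ h ∈ range H, (Complex.exp (2 * Real.pi * Complex.I / M)) ^ (h * y)‖ :=
    le_trans hre (Complex.re_le_norm _)
  have h3 : (0 : ℝ) ≤ (H : ℝ) / 2 := by positivity
  calc (H : ℝ) ^ 2 / 4 = ((H : ℝ) / 2) ^ 2 := by ring
    _ ≤ _ := pow_le_pow_left₀ h3 h2 2


/-- the mean-zero function attached to a prime `r` and a set of `ω` excluded classes -/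
noncomputable def hf (Ω : ℕ → Finset ℕ) (r y : ℕ) : ℝ :=
  1 - ((r : ℝ) / (Ω r).card) * (if y % r ∈ Ω r then 1 else 0)

theorem hf_periodic (Ω : ℕ → Finset ℕ) (r : ℕ) : Function.Periodic (hf Ω r) r := by
  intro y
  unfold hf
  rw [Nat.add_mod_right]

theorem sum_ite_Ω {Ω : ℕ → Finset ℕ} {r : ℕ} (hΩ : Ω r ⊆ range r) :
    ∑ b ∈ range r, (if b % r ∈ Ω r then (1 : ℝ) else 0) = (Ω r).card := by
  have h1 : ∀ b ∈ range r, (if b % r ∈ Ω r then (1 : ℝ) else 0) = if b ∈ Ω r then 1 else 0 := by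
    intro b hb
    rw [Nat.mod_eq_of_lt (Finset.mem_range.mp hb)]
  rw [Finset.sum_congr rfl h1, Finset.sum_ite_mem]
  rw [Finset.inter_eq_right.mpr hΩ]
  simp

theorem mean_hf {Ω : ℕ → Finset ℕ} {r : ℕ} (hΩ : Ω r ⊆ range r) (hne : 0 < (Ω r).card) :
    mean r (hf Ω r) = 0 := by
  unfold mean hf
  rw [Finset.sum_sub_distrib, ← Finset.mul_sum, sum_ite_Ω hΩ]
  have : ((Ω r).card : ℝ) ≠ 0 := by positivity
  field_simp
  simp

theorem mean_hf_sq {Ω : ℕ → Finset ℕ} {r : ℕ} (hr : 0 < r) (hΩ : Ω r ⊆ range r)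
    (hne : 0 < (Ω r).card) :
    mean r (fun y => hf Ω r y * hf Ω r y) = r / (Ω r).card - 1 := by
  unfold mean
  have h1 : ∀ b ∈ range r, hf Ω r b * hf Ω r b
      = 1 + (((r : ℝ) / (Ω r).card) ^ 2 - 2 * ((r : ℝ) / (Ω r).card)) *
        (if b % r ∈ Ω r then 1 else 0) := by
    intro b _
    unfold hf
    split_ifs <;> ring
  rw [Finset.sum_congr rfl h1, Finset.sum_add_distrib, ← Finset.mul_sum, sum_ite_Ω hΩ]
  have : ((Ω r).card : ℝ) ≠ 0 := by positivity
  have : (r : ℝ) ≠ 0 := by positivity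
  simp
  field_simp
  ring

/-- pair means -/
theorem mean_pair {Ω : ℕ → Finset ℕ} {r r' : ℕ} (hr : r.Prime) (hr' : r'.Prime)
    (hΩ : Ω r ⊆ range r) (hne : 0 < (Ω r).card) {D : ℝ}
    (hD : (r : ℝ) ≤ D * (Ω r).card) :
    mean (Nat.lcm r r') (fun y => hf Ω r y * hf Ω r' y) ≤ (if r = r' then D else 0) ∧
    (r ≠ r' → mean (Nat.lcm r r') (fun y => hf Ω r y * hf Ω r' y) = 0) := by
  by_cases h : r = r'
  · subst h
    rw [Nat.lcm_self, if_pos rfl, mean_hf_sq hr.pos hΩ hne]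
    refine ⟨?_, fun h => absurd rfl h⟩
    have h1 : (0 : ℝ) < (Ω r).card := by exact_mod_cast hne
    have : (r : ℝ) / (Ω r).card ≤ D := by
      rw [div_le_iff₀ h1]; exact hD
    linarith
  · have hc : Nat.Coprime r r' := (Nat.coprime_primes hr hr').mpr h
    rw [Nat.Coprime.lcm_eq_mul hc, if_neg h,
      mean_mul hr.pos hr'.pos hc _ _ (hf_periodic Ω r) (hf_periodic Ω r'), mean_hf hΩ hne, zero_mul]
    exact ⟨le_rfl, fun _ => rfl⟩

/-- **Large sieve** in product form. -/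
theorem sieve_bound {X Y u n0 : ℕ} (hX : 1 ≤ X) (hn0 : 1 ≤ n0) (hY : Y ^ (2 * u) ≤ 6 * X)
    (e : Fin u → Fin n0 → ℕ) (he : ∀ j i, (e j i).Prime) (heY : ∀ j i, e j i ≤ Y)
    (hinj : ∀ j i j' i', e j i = e j' i' → j = j' ∧ i = i')
    (Ω : ℕ → Finset ℕ) (hΩ : ∀ j i, Ω (e j i) ⊆ range (e j i))
    (hne : ∀ j i, 0 < (Ω (e j i)).card) {D : ℝ} (hD : ∀ j i, (e j i : ℝ) ≤ D * (Ω (e j i)).card)
    (S : Finset ℕ) (hS : ∀ y ∈ S, y ≤ X) (hSΩ : ∀ y ∈ S, ∀ j i, y % (e j i) ∉ Ω (e j i)) :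
    (S.card : ℝ) ≤ 24 * X * (D / n0) ^ u := by
  classical
  set H := (6 * X).factorial with hH
  set M := 6 * X * H with hM
  have hHpos : 0 < H := Nat.factorial_pos _
  have hMpos : 0 < M := by positivity
  set F : ℕ → ℝ := fun y => ∏ j : Fin u, ∑ i : Fin n0, hf Ω (e j i) y / n0 with hF
  have hn0r : (n0 : ℝ) ≠ 0 := by positivity
  -- F = 1 on S
  have hFS : ∀ y ∈ S, F y = 1 := by
    intro y hy
    rw [hF]
    apply Finset.prod_eq_one
    intro j _
    have : ∀ i ∈ (Finset.univ : Finset (Fin n0)), hf Ω (e j i) y / n0 = 1 / n0 := by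
      intro i _
      unfold hf
      rw [if_neg (hSΩ y hy j i)]
      ring
    rw [Finset.sum_congr rfl this]
    simp
    field_simp
  -- lower bound
  have hlow : (S.card : ℝ) * ((H : ℝ) ^ 2 / 4) ≤ ∑ y ∈ range M, wt M H y * (F y) ^ 2 := by
    have hsub : S ⊆ range M := by
      intro y hy
      rw [Finset.mem_range]
      have h1 := hS y hy
      have h2 : 6 * X ≤ M := Nat.le_mul_of_pos_right _ hHpos
      omega
    calc (S.card : ℝ) * ((H : ℝ) ^ 2 / 4) = ∑ y ∈ S, (H : ℝ) ^ 2 / 4 := by simp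
      _ ≤ ∑ y ∈ S, wt M H y * (F y) ^ 2 := by
          apply Finset.sum_le_sum
          intro y hy
          rw [hFS y hy, one_pow, mul_one]
          exact wt_lower hMpos le_rfl (hS y hy)
      _ ≤ ∑ y ∈ range M, wt M H y * (F y) ^ 2 := by
          apply Finset.sum_le_sum_of_subset_of_nonneg hsub
          intro y _ _
          exact mul_nonneg (wt_nonneg _ _ _) (sq_nonneg _)
  -- expansion of F^2
  have hexp : ∀ y, (F y) ^ 2 = ∑ ρ ∈ Fintype.piFinset
      (fun _ : Fin u => (Finset.univ : Finset (Fin n0 × Fin n0))),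
      ((1 : ℝ) / n0 ^ 2) ^ u * ∏ j, (hf Ω (e j (ρ j).1) y * hf Ω (e j (ρ j).2) y) := by
    intro y
    have h1 : (F y) ^ 2 = ∏ j : Fin u, ∑ p : Fin n0 × Fin n0,
        ((1 : ℝ) / n0 ^ 2) * (hf Ω (e j p.1) y * hf Ω (e j p.2) y) := by
      rw [hF]
      simp only
      rw [← Finset.prod_pow]
      apply Finset.prod_congr rfl
      intro j _
      rw [sq, Finset.sum_mul_sum, ← Finset.sum_product']
      apply Finset.sum_congr (by simp)
      intro p _
      field_simp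
    rw [h1, Finset.prod_univ_sum]
    apply Finset.sum_congr rfl
    intro ρ _
    rw [Finset.prod_mul_distrib]
    simp
  -- evaluate
  have hval : ∀ ρ : Fin u → Fin n0 × Fin n0,
      ∑ y ∈ range M, wt M H y * ∏ j, (hf Ω (e j (ρ j).1) y * hf Ω (e j (ρ j).2) y)
      = (M * H : ℝ) * ∏ j, mean (Nat.lcm (e j (ρ j).1) (e j (ρ j).2))
          (fun y => hf Ω (e j (ρ j).1) y * hf Ω (e j (ρ j).2) y) := by
    intro ρ
    have hper : ∀ j, Function.Periodic (fun y => hf Ω (e j (ρ j).1) y * hf Ω (e j (ρ j).2) y)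
        (Nat.lcm (e j (ρ j).1) (e j (ρ j).2)) := by
      intro j
      obtain ⟨c, hc⟩ := Nat.dvd_lcm_left (e j (ρ j).1) (e j (ρ j).2)
      obtain ⟨c', hc'⟩ := Nat.dvd_lcm_right (e j (ρ j).1) (e j (ρ j).2)
      intro y
      have h1 : hf Ω (e j (ρ j).1) (y + Nat.lcm (e j (ρ j).1) (e j (ρ j).2))
          = hf Ω (e j (ρ j).1) y := by
        rw [hc]
        have := ((hf_periodic Ω (e j (ρ j).1)).nat_mul c) y
        simpa [mul_comm] using this
      have h2 : hf Ω (e j (ρ j).2) (y + Nat.lcm (e j (ρ j).1) (e j (ρ j).2))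
          = hf Ω (e j (ρ j).2) y := by
        rw [hc']
        have := ((hf_periodic Ω (e j (ρ j).2)).nat_mul c') y
        simpa [mul_comm] using this
      simp only
      rw [h1, h2]
    have hpos : ∀ j ∈ (Finset.univ : Finset (Fin u)),
        0 < Nat.lcm (e j (ρ j).1) (e j (ρ j).2) := by
      intro j _
      exact Nat.lcm_pos (he _ _).pos (he _ _).pos
    have hcop : ∀ i ∈ (Finset.univ : Finset (Fin u)), ∀ j ∈ (Finset.univ : Finset (Fin u)), i ≠ j →
        Nat.Coprime (Nat.lcm (e i (ρ i).1) (e i (ρ i).2)) (Nat.lcm (e j (ρ j).1) (e j (ρ j).2)) := by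
      intro i _ j _ hij
      have hcc : ∀ a b, Nat.Coprime (e i a) (e j b) := by
        intro a b
        rw [Nat.coprime_primes (he _ _) (he _ _)]
        intro h
        exact hij (hinj _ _ _ _ h).1
      have h1 : ∀ b, Nat.Coprime (Nat.lcm (e i (ρ i).1) (e i (ρ i).2)) (e j b) := by
        intro b
        apply Nat.Coprime.coprime_dvd_left (Nat.lcm_dvd_mul _ _)
        exact Nat.Coprime.mul_left (hcc _ _) (hcc _ _)
      apply Nat.Coprime.coprime_dvd_right (Nat.lcm_dvd_mul _ _)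
      exact Nat.Coprime.mul_right (h1 _) (h1 _)
    obtain ⟨hp1, hp2⟩ := mean_prod Finset.univ (fun j => Nat.lcm (e j (ρ j).1) (e j (ρ j).2))
      hpos hcop (fun j y => hf Ω (e j (ρ j).1) y * hf Ω (e j (ρ j).2) y) (fun j _ => hper j)
    have hle : ∏ j : Fin u, Nat.lcm (e j (ρ j).1) (e j (ρ j).2) ≤ 6 * X := by
      calc ∏ j : Fin u, Nat.lcm (e j (ρ j).1) (e j (ρ j).2)
          ≤ ∏ j : Fin u, (Y * Y) := by
            apply Finset.prod_le_prod' 
            intro j _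
            exact le_trans (Nat.le_of_dvd (Nat.mul_pos (he _ _).pos (he _ _).pos)
              (Nat.lcm_dvd_mul _ _)) (Nat.mul_le_mul (heY _ _) (heY _ _))
        _ = Y ^ (2 * u) := by simp [pow_mul, sq]
        _ ≤ 6 * X := hY
    have hlpos : 0 < ∏ j : Fin u, Nat.lcm (e j (ρ j).1) (e j (ρ j).2) := Finset.prod_pos hpos
    have hdvd : (∏ j : Fin u, Nat.lcm (e j (ρ j).1) (e j (ρ j).2)) ∣ M := by
      rw [hM]
      apply Dvd.dvd.mul_left
      exact Nat.dvd_factorial hlpos hle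
    rw [wt_sum hMpos hdvd (by rw [hM]; exact Nat.mul_le_mul_right _ hle) _ hp1, hp2]
  have hDn : (0 : ℝ) < n0 := by positivity
  -- put together
  have hupper : ∑ y ∈ range M, wt M H y * (F y) ^ 2 ≤ (M * H : ℝ) * (D / n0) ^ u := by
    have h1 : ∑ y ∈ range M, wt M H y * (F y) ^ 2
        = ∑ ρ ∈ Fintype.piFinset (fun _ : Fin u => (Finset.univ : Finset (Fin n0 × Fin n0))),
          ((1 : ℝ) / n0 ^ 2) ^ u * ((M * H : ℝ) * ∏ j, mean (Nat.lcm (e j (ρ j).1) (e j (ρ j).2))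
          (fun y => hf Ω (e j (ρ j).1) y * hf Ω (e j (ρ j).2) y)) := by
      simp_rw [hexp, Finset.mul_sum]
      rw [Finset.sum_comm]
      apply Finset.sum_congr rfl
      intro ρ _
      rw [← hval ρ, Finset.mul_sum]
      apply Finset.sum_congr rfl
      intro y _
      ring
    have h2 : ∑ ρ ∈ Fintype.piFinset (fun _ : Fin u => (Finset.univ : Finset (Fin n0 × Fin n0))),
          ((1 : ℝ) / n0 ^ 2) ^ u * ((M * H : ℝ) * ∏ j, mean (Nat.lcm (e j (ρ j).1) (e j (ρ j).2))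
          (fun y => hf Ω (e j (ρ j).1) y * hf Ω (e j (ρ j).2) y))
        = (M * H : ℝ) * (((1 : ℝ) / n0 ^ 2) ^ u * ∏ j : Fin u, ∑ p : Fin n0 × Fin n0,
            mean (Nat.lcm (e j p.1) (e j p.2)) (fun y => hf Ω (e j p.1) y * hf Ω (e j p.2) y)) := by
      rw [Finset.prod_univ_sum, Finset.mul_sum, Finset.mul_sum]
      apply Finset.sum_congr rfl
      intro ρ _
      ring
    rw [h1, h2]
    apply mul_le_mul_of_nonneg_left _ (by positivity)
    have h3 : ∀ j : Fin u, 0 ≤ ∑ p : Fin n0 × Fin n0,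
            mean (Nat.lcm (e j p.1) (e j p.2)) (fun y => hf Ω (e j p.1) y * hf Ω (e j p.2) y)
        ∧ ∑ p : Fin n0 × Fin n0,
            mean (Nat.lcm (e j p.1) (e j p.2)) (fun y => hf Ω (e j p.1) y * hf Ω (e j p.2) y)
          ≤ n0 * D := by
      intro j
      have h4 : ∑ p : Fin n0 × Fin n0,
            mean (Nat.lcm (e j p.1) (e j p.2)) (fun y => hf Ω (e j p.1) y * hf Ω (e j p.2) y)
          = ∑ i : Fin n0, mean (e j i) (fun y => hf Ω (e j i) y * hf Ω (e j i) y) := by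
        rw [Fintype.sum_prod_type]
        apply Finset.sum_congr rfl
        intro i _
        rw [Finset.sum_eq_single i]
        · simp only [Nat.lcm_self]
        · intro i' _ hi'
          refine (mean_pair (he j i) (he j i') (hΩ j i) (hne j i) (hD j i)).2 ?_
          intro h
          exact hi' (hinj _ _ _ _ h).2.symm
        · intro h
          exact absurd (Finset.mem_univ i) h
      rw [h4]
      constructor
      · apply Finset.sum_nonneg
        intro i _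
        unfold mean
        apply div_nonneg _ (by positivity)
        apply Finset.sum_nonneg
        intro y _
        exact mul_self_nonneg _
      · calc ∑ i : Fin n0, mean (e j i) (fun y => hf Ω (e j i) y * hf Ω (e j i) y)
            ≤ ∑ i : Fin n0, D := by
              apply Finset.sum_le_sum
              intro i _
              rw [mean_hf_sq (he j i).pos (hΩ j i) (hne j i)]
              have h1 : (0 : ℝ) < (Ω (e j i)).card := by exact_mod_cast hne j i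
              have : (e j i : ℝ) / (Ω (e j i)).card ≤ D := by
                rw [div_le_iff₀ h1]; exact hD j i
              linarith
          _ = n0 * D := by simp
    calc ((1 : ℝ) / n0 ^ 2) ^ u * ∏ j : Fin u, ∑ p : Fin n0 × Fin n0,
            mean (Nat.lcm (e j p.1) (e j p.2)) (fun y => hf Ω (e j p.1) y * hf Ω (e j p.2) y)
        ≤ ((1 : ℝ) / n0 ^ 2) ^ u * ∏ j : Fin u, (n0 * D) := by
          apply mul_le_mul_of_nonneg_left _ (by positivity)
          apply Finset.prod_le_prod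
          · intro j _
            exact (h3 j).1
          · intro j _
            exact (h3 j).2
      _ = (D / n0) ^ u := by
          rw [Finset.prod_const, Finset.card_univ, Fintype.card_fin, ← mul_pow]
          congr 1
          field_simp
  have h5 := le_trans hlow hupper
  have hHr : (0 : ℝ) < H := by exact_mod_cast hHpos
  have h6 : (M : ℝ) = 6 * X * H := by rw [hM]; push_cast; ring
  rw [h6] at h5
  have h7 : (S.card : ℝ) * ((H : ℝ) ^ 2 / 4) ≤ (24 * X * (D / n0) ^ u) * ((H : ℝ) ^ 2 / 4) := by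
    calc (S.card : ℝ) * ((H : ℝ) ^ 2 / 4) ≤ 6 * X * H * H * (D / n0) ^ u := h5
      _ = (24 * X * (D / n0) ^ u) * ((H : ℝ) ^ 2 / 4) := by ring
  exact le_of_mul_le_mul_right h7 (by positivity)



/-- If `r` is an odd prime with `s * y ≡ 2^j (mod r)`, then among any `orderOf 2` consecutive members
of the sequence `2^i y - s` one is divisible by `r`. -/
theorem exists_dvd {r : ℕ} (hr : r.Prime) (hr2 : r ≠ 2) {s y : ℤ} (hs : s = 1 ∨ s = -1) {j : ℕ}
    (hj : (r : ℤ) ∣ s * y - 2 ^ j) (a : ℕ) :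
    ∃ i, i < orderOf (2 : ZMod r) ∧ (r : ℤ) ∣ 2 ^ (a + i) * y - s := by
  have : Fact r.Prime := ⟨hr⟩
  set d := orderOf (2 : ZMod r) with hd
  have h2 : (2 : ZMod r) ≠ 0 := by
    intro h
    have h1 : ((2 : ℕ) : ZMod r) = 0 := by exact_mod_cast h
    rw [ZMod.natCast_eq_zero_iff] at h1
    exact hr2 ((Nat.prime_dvd_prime_iff_eq hr Nat.prime_two).mp h1)
  have hdpos : 0 < d := by
    rw [hd]
    exact orderOf_pos_iff.mpr (isOfFinOrder_iff_pow_eq_one.mpr ⟨r - 1, by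
      have := hr.two_le; omega, ZMod.pow_card_sub_one_eq_one h2⟩)
  -- choose i with d ∣ a + i + j
  refine ⟨(d - (a + j) % d) % d, Nat.mod_lt _ hdpos, ?_⟩
  set i := (d - (a + j) % d) % d with hi
  have hdvd : d ∣ a + i + j := by
    have h3 : (a + i + j) % d = 0 := by
      have h4 : a + i + j = (a + j) + i := by ring
      rw [h4, hi, Nat.add_mod_mod, ← Nat.mod_add_mod]
      have h5 : (a + j) % d < d := Nat.mod_lt _ hdpos
      rw [Nat.add_sub_cancel' h5.le, Nat.mod_self]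
    exact Nat.dvd_of_mod_eq_zero h3
  have hpow : (2 : ZMod r) ^ (a + i + j) = 1 := by
    obtain ⟨c, hc⟩ := hdvd
    rw [hc, pow_mul, hd, pow_orderOf_eq_one, one_pow]
  have hjz : (s : ZMod r) * y = 2 ^ j := by
    have := (ZMod.intCast_zmod_eq_zero_iff_dvd (s * y - 2 ^ j) r).mpr hj
    push_cast at this
    linear_combination this
  have hss : (s : ZMod r) * s = 1 := by
    rcases hs with rfl | rfl <;> simp
  rw [← ZMod.intCast_zmod_eq_zero_iff_dvd]
  push_cast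
  have h6 : (2 : ZMod r) ^ (a + i) * y = s * ((2 : ZMod r) ^ (a + i) * (s * y)) := by
    linear_combination (-(2 : ZMod r) ^ (a + i) * y) * hss
  rw [h6, hjz, ← pow_add, hpow]
  ring


theorem two_ne_zero_zmod {r : ℕ} (hr : r.Prime) (hr2 : r ≠ 2) : (2 : ZMod r) ≠ 0 := by
  intro h
  have h1 : ((2 : ℕ) : ZMod r) = 0 := by exact_mod_cast h
  rw [ZMod.natCast_eq_zero_iff] at h1
  exact hr2 ((Nat.prime_dvd_prime_iff_eq hr Nat.prime_two).mp h1)

theorem orderOf_two_pos {r : ℕ} (hr : r.Prime) (hr2 : r ≠ 2) : 0 < orderOf (2 : ZMod r) := by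
  have : Fact r.Prime := ⟨hr⟩
  exact orderOf_pos_iff.mpr (isOfFinOrder_iff_pow_eq_one.mpr ⟨r - 1, by
    have := hr.two_le; omega, ZMod.pow_card_sub_one_eq_one (two_ne_zero_zmod hr hr2)⟩)

theorem order_le {r : ℕ} (hr : r.Prime) (hr2 : r ≠ 2) : orderOf (2 : ZMod r) + 1 ≤ r := by
  have : Fact r.Prime := ⟨hr⟩
  have h3 := orderOf_dvd_of_pow_eq_one (ZMod.pow_card_sub_one_eq_one (two_ne_zero_zmod hr hr2))
  have h4 := hr.two_le
  have h5 := Nat.le_of_dvd (by omega) h3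
  omega

/-- few primes have small order of `2` -/
theorem small_order_card (B : Finset ℕ) (T : ℕ) (hB : ∀ r ∈ B, r.Prime ∧ r ≠ 2 ∧
    orderOf (2 : ZMod r) ≤ T) : B.card ≤ T ^ 2 := by
  have hdvd : ∏ r ∈ B, r ∣ ∏ m ∈ Finset.Icc 1 T, (2 ^ m - 1) := by
    apply Finset.prod_primes_dvd
    · intro r hr
      exact (hB r hr).1.prime
    · intro r hr
      obtain ⟨hp, hr2, hT⟩ := hB r hr
      have h1 : r ∣ 2 ^ orderOf (2 : ZMod r) - 1 := by
        have h2 : (2 : ZMod r) ^ orderOf (2 : ZMod r) = 1 := pow_orderOf_eq_one _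
        have h3 : ((2 ^ orderOf (2 : ZMod r) : ℕ) : ZMod r) = ((1 : ℕ) : ZMod r) := by
          push_cast; exact h2
        rw [ZMod.natCast_eq_natCast_iff] at h3
        exact (Nat.modEq_iff_dvd' Nat.one_le_two_pow).mp h3.symm
      apply dvd_trans h1
      exact Finset.dvd_prod_of_mem (fun m => 2 ^ m - 1)
        (Finset.mem_Icc.mpr ⟨orderOf_two_pos hp hr2, hT⟩)
  have hpos : 0 < ∏ m ∈ Finset.Icc 1 T, (2 ^ m - 1) := by
    apply Finset.prod_pos
    intro m hm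
    have h1 := (Finset.mem_Icc.mp hm).1
    have h2 : 1 < 2 ^ m := Nat.one_lt_two_pow (by omega)
    omega
  have h1 : 2 ^ B.card ≤ 2 ^ (T ^ 2) := by
    calc 2 ^ B.card = ∏ r ∈ B, 2 := by simp
      _ ≤ ∏ r ∈ B, r := Finset.prod_le_prod' (fun r hr => (hB r hr).1.two_le)
      _ ≤ ∏ m ∈ Finset.Icc 1 T, (2 ^ m - 1) := Nat.le_of_dvd hpos hdvd
      _ ≤ ∏ m ∈ Finset.Icc 1 T, 2 ^ T := by
          apply Finset.prod_le_prod'
          intro m hm
          exact le_trans (Nat.sub_le _ _) (Nat.pow_le_pow_right (by norm_num)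
            (Finset.mem_Icc.mp hm).2)
      _ = 2 ^ (T ^ 2) := by simp [← pow_mul, sq]
  exact (Nat.pow_le_pow_iff_right (by norm_num)).mp h1

/-- residues `b mod r` with `2^i b ≡ s` for some `i` -/
noncomputable def Om (s : ℤ) (r : ℕ) : Finset ℕ := by
  classical
  exact (range r).filter (fun b => ∃ i, i < orderOf (2 : ZMod r) ∧ (2 : ZMod r) ^ i * b = s)

theorem Om_subset (s : ℤ) (r : ℕ) : Om s r ⊆ range r := by
  unfold Om
  exact Finset.filter_subset _ _

theorem Om_card {s : ℤ} (hs : s = 1 ∨ s = -1) {r : ℕ} (hr : r.Prime) (hr2 : r ≠ 2) :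
    orderOf (2 : ZMod r) ≤ (Om s r).card := by
  classical
  have : Fact r.Prime := ⟨hr⟩
  have : NeZero r := ⟨hr.ne_zero⟩
  have h2 := two_ne_zero_zmod hr hr2
  have hs0 : (s : ZMod r) ≠ 0 := by
    rcases hs with rfl | rfl <;> simp
  have hcard : (Finset.range (orderOf (2 : ZMod r))).card ≤ (Om s r).card := by
    apply Finset.card_le_card_of_injOn (fun i => ZMod.val ((s : ZMod r) * ((2 : ZMod r) ^ i)⁻¹))
    · intro i hi
      unfold Om
      simp only [coe_filter, Finset.mem_range, Set.mem_ofPred_eq]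
      refine ⟨ZMod.val_lt _, i, Finset.mem_range.mp (Finset.mem_coe.mp hi), ?_⟩
      rw [ZMod.natCast_zmod_val]
      field_simp
    · intro i hi j hj hij
      simp only at hij
      have h3 := ZMod.val_injective r hij
      have h4 := mul_left_cancel₀ hs0 h3
      have h5 := inv_injective h4
      exact pow_injOn_Iio_orderOf (by simpa using hi) (by simpa using hj) h5
  simpa using hcard

/-- A Cunningham chain of the first kind of length `k`. -/
def FirstKind (k : ℕ) (q : ℕ → ℕ) : Prop :=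
  (∀ i < k, (q i).Prime) ∧ ∀ i, i + 1 < k → q (i + 1) = 2 * q i + 1

/-- A Cunningham chain of the second kind of length `k`. -/
def SecondKind (k : ℕ) (q : ℕ → ℕ) : Prop :=
  (∀ i < k, (q i).Prime) ∧ ∀ i, i + 1 < k → q (i + 1) + 1 = 2 * q i

/-- Some Cunningham chain of length `k` starts at `2^a y - 1` (first kind) or at `2^a y + 1` (second
kind).  Its terms are then the numbers `2^(a+i) y - 1`, respectively `2^(a+i) y + 1`, `i < k`. -/
def ChainAt (y a k : ℕ) : Prop :=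
  ∃ q : ℕ → ℕ, (FirstKind k q ∧ q 0 + 1 = 2 ^ a * y) ∨ (SecondKind k q ∧ q 0 = 2 ^ a * y + 1)

theorem closed_first {k : ℕ} {q : ℕ → ℕ} (h : ∀ i, i + 1 < k → q (i + 1) = 2 * q i + 1) {a y : ℕ}
    (h0 : q 0 + 1 = 2 ^ a * y) : ∀ i, i < k → q i + 1 = 2 ^ (a + i) * y := by
  intro i
  induction i with
  | zero => intro _; simpa using h0
  | succ i ih =>
    intro hi
    have h1 := ih (by omega)
    have h2 := h i hi
    have h3 : 2 ^ (a + (i + 1)) * y = 2 * (2 ^ (a + i) * y) := by ring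
    omega

theorem closed_second {k : ℕ} {q : ℕ → ℕ} (h : ∀ i, i + 1 < k → q (i + 1) + 1 = 2 * q i) {a y : ℕ}
    (h0 : q 0 = 2 ^ a * y + 1) : ∀ i, i < k → q i = 2 ^ (a + i) * y + 1 := by
  intro i
  induction i with
  | zero => intro _; simpa using h0
  | succ i ih =>
    intro hi
    have h1 := ih (by omega)
    have h2 := h i hi
    have h3 : 2 ^ (a + (i + 1)) * y = 2 * (2 ^ (a + i) * y) := by ring
    omega


/-- residues `b mod r` with `2^(a+i) b ≡ s` for some `i < T` -/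
noncomputable def OmA (s : ℤ) (a T : ℕ) (r : ℕ) : Finset ℕ := by
  classical
  exact (range r).filter (fun b => ∃ i, i < T ∧ (2 : ZMod r) ^ (a + i) * b = s)

theorem OmA_subset (s : ℤ) (a T r : ℕ) : OmA s a T r ⊆ range r := by
  unfold OmA
  exact Finset.filter_subset _ _

theorem OmA_card {s : ℤ} (hs : s = 1 ∨ s = -1) {r : ℕ} (hr : r.Prime) (hr2 : r ≠ 2) (a : ℕ) {T : ℕ}
    (hT : T ≤ orderOf (2 : ZMod r)) : T ≤ (OmA s a T r).card := by
  classical
  have : Fact r.Prime := ⟨hr⟩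
  have : NeZero r := ⟨hr.ne_zero⟩
  have h2 := two_ne_zero_zmod hr hr2
  have hs0 : (s : ZMod r) ≠ 0 := by
    rcases hs with rfl | rfl <;> simp
  have hcard : (Finset.range T).card ≤ (OmA s a T r).card := by
    apply Finset.card_le_card_of_injOn
      (fun i => ZMod.val ((s : ZMod r) * ((2 : ZMod r) ^ (a + i))⁻¹))
    · intro i hi
      unfold OmA
      simp only [coe_filter, Finset.mem_range, Set.mem_ofPred_eq]
      refine ⟨ZMod.val_lt _, i, Finset.mem_range.mp (Finset.mem_coe.mp hi), ?_⟩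
      rw [ZMod.natCast_zmod_val]
      field_simp
    · intro i hi j hj hij
      simp only at hij
      have h3 := ZMod.val_injective r hij
      have h4 := mul_left_cancel₀ hs0 h3
      have h5 := inv_injective h4
      rw [pow_add, pow_add] at h5
      have h6 := mul_left_cancel₀ (pow_ne_zero a h2) h5
      have hi' : i < T := by simpa using hi
      have hj' : j < T := by simpa using hj
      exact pow_injOn_Iio_orderOf (Set.mem_Iio.mpr (lt_of_lt_of_le hi' hT))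
        (Set.mem_Iio.mpr (lt_of_lt_of_le hj' hT)) h6
  simpa using hcard

/-- the terms of a chain, in closed form -/
theorem ChainAt.form {y a k : ℕ} (h : ChainAt y a k) : ∃ (s : ℤ) (q : ℕ → ℕ), (s = 1 ∨ s = -1) ∧
    (∀ i < k, (q i).Prime) ∧ ∀ i < k, (q i : ℤ) = 2 ^ (a + i) * y - s := by
  obtain ⟨q, ⟨⟨hp, hrec⟩, h0⟩ | ⟨⟨hp, hrec⟩, h0⟩⟩ := h
  · refine ⟨1, q, Or.inl rfl, hp, ?_⟩
    intro i hi
    have h1 := closed_first hrec h0 i hi
    have h2 : ((q i + 1 : ℕ) : ℤ) = ((2 ^ (a + i) * y : ℕ) : ℤ) := by rw [h1]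
    push_cast at h2
    linarith
  · refine ⟨-1, q, Or.inr rfl, hp, ?_⟩
    intro i hi
    have h1 := closed_second hrec h0 i hi
    rw [h1]
    push_cast
    ring

/-- a prime `r ≤ Y` divides no term of a chain attached to `y ≥ Y + 2` -/
theorem not_dvd_term {y a k Y : ℕ} {s : ℤ} {q : ℕ → ℕ} (hs : s = 1 ∨ s = -1)
    (hp : ∀ i < k, (q i).Prime) (hform : ∀ i < k, (q i : ℤ) = 2 ^ (a + i) * y - s)
    (hyY : Y + 2 ≤ y) {r : ℕ} (hr : r.Prime) (hrY : r ≤ Y) {i : ℕ} (hi : i < k)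
    (hd : (r : ℤ) ∣ 2 ^ (a + i) * y - s) : False := by
  rw [← hform i hi] at hd
  have hd' : r ∣ q i := by exact_mod_cast hd
  have heq : r = q i := (Nat.prime_dvd_prime_iff_eq hr (hp i hi)).mp hd'
  have h3 : (y : ℤ) ≤ 2 ^ (a + i) * y := by
    have : (1 : ℤ) ≤ 2 ^ (a + i) := one_le_pow₀ (by norm_num)
    nlinarith
  have h4 : (q i : ℤ) = 2 ^ (a + i) * y - s := hform i hi
  have h5 : (r : ℤ) ≤ Y := by exact_mod_cast hrY
  have h6 : (Y : ℤ) + 2 ≤ y := by exact_mod_cast hyY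
  rw [← heq] at h4
  rcases hs with rfl | rfl <;> linarith

/-- a long chain attached to `y` forces `y mod r` to avoid `Om s r` -/
theorem avoid {y a k Y : ℕ} (hyY : Y + 2 ≤ y) (hk : Y ≤ k) (h : ChainAt y a k) :
    ∃ s : ℤ, (s = 1 ∨ s = -1) ∧ ∀ r : ℕ, r.Prime → r ≠ 2 → r ≤ Y → y % r ∉ Om s r := by
  obtain ⟨s, q, hs, hp, hform⟩ := h.form
  refine ⟨s, hs, ?_⟩
  intro r hr hr2 hrY hmem
  have hord := order_le hr hr2
  unfold Om at hmem
  simp only [mem_filter, Finset.mem_range] at hmem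
  obtain ⟨-, i, hi, hiy⟩ := hmem
  rw [ZMod.natCast_mod] at hiy
  have hss : (s : ZMod r) * s = 1 := by
    rcases hs with rfl | rfl <;> simp
  have hj : (r : ℤ) ∣ s * y - 2 ^ (orderOf (2 : ZMod r) - i) := by
    rw [← ZMod.intCast_zmod_eq_zero_iff_dvd]
    push_cast
    have h1 : (2 : ZMod r) ^ (orderOf (2 : ZMod r) - i) * 2 ^ i = 1 := by
      rw [← pow_add, Nat.sub_add_cancel hi.le, pow_orderOf_eq_one]
    have h2 : (s : ZMod r) * y = 2 ^ (orderOf (2 : ZMod r) - i) := by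
      calc (s : ZMod r) * y = (s * y) * ((2 : ZMod r) ^ (orderOf (2 : ZMod r) - i) * 2 ^ i) := by
            rw [h1, mul_one]
        _ = s * (2 ^ i * y) * 2 ^ (orderOf (2 : ZMod r) - i) := by ring
        _ = 2 ^ (orderOf (2 : ZMod r) - i) := by rw [hiy, hss, one_mul]
    rw [h2, sub_self]
  obtain ⟨i', hi', hd⟩ := exists_dvd hr hr2 (s := s) (y := (y : ℤ)) hs hj a
  exact not_dvd_term hs hp hform hyY hr hrY (by omega) hd

/-- a chain of length `≥ T` starting at `2^a y ∓ 1` forces `y mod r` to avoid `OmA s a T r` -/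
theorem avoidA {y a k Y T : ℕ} (hyY : Y + 2 ≤ y) (hk : T ≤ k) (h : ChainAt y a k) :
    ∃ s : ℤ, (s = 1 ∨ s = -1) ∧ ∀ r : ℕ, r.Prime → r ≠ 2 → r ≤ Y → y % r ∉ OmA s a T r := by
  obtain ⟨s, q, hs, hp, hform⟩ := h.form
  refine ⟨s, hs, ?_⟩
  intro r hr hr2 hrY hmem
  unfold OmA at hmem
  simp only [mem_filter, Finset.mem_range] at hmem
  obtain ⟨-, i, hi, hiy⟩ := hmem
  rw [ZMod.natCast_mod] at hiy
  refine not_dvd_term hs hp hform hyY hr hrY (lt_of_lt_of_le hi hk) (i := i) ?_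
  rw [← ZMod.intCast_zmod_eq_zero_iff_dvd]
  push_cast
  rw [hiy, sub_self]

/-- sifting by the primes `r ≤ Y` for which `2` has order more than `T`, when at least `T + 1`
classes are excluded for each -/
theorem sift {X Y T u n0 : ℕ} (hX : 1 ≤ X) (hn0 : 1 ≤ n0) (hY : Y ^ (2 * u) ≤ 6 * X)
    (hcount : u * n0 + T ^ 2 + 1 ≤ Nat.primeCounting Y) (Ω : ℕ → Finset ℕ)
    (hΩ : ∀ r : ℕ, Ω r ⊆ range r)
    (hcard : ∀ r : ℕ, r.Prime → r ≠ 2 → T < orderOf (2 : ZMod r) → T + 1 ≤ (Ω r).card)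
    (S : Finset ℕ) (hS : ∀ y ∈ S, y ≤ X)
    (hSΩ : ∀ y ∈ S, ∀ r : ℕ, r.Prime → r ≠ 2 → r ≤ Y → y % r ∉ Ω r) :
    (S.card : ℝ) ≤ 24 * X * ((Y / (T + 1)) / n0) ^ u := by
  classical
  -- the set of good primes
  set P : Finset ℕ := (range (Y + 1)).filter Nat.Prime with hP
  have hPcard : P.card = Nat.primeCounting Y := by
    rw [hP, Nat.primeCounting, Nat.primeCounting', Nat.count_eq_card_filter_range]
  set R : Finset ℕ := P.filter (fun r => r ≠ 2 ∧ T < orderOf (2 : ZMod r)) with hR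
  have hRcard : u * n0 ≤ R.card := by
    have h1 : P ⊆ R ∪ ({2} ∪ P.filter (fun r => r ≠ 2 ∧ orderOf (2 : ZMod r) ≤ T)) := by
      intro r hr
      simp only [hR, mem_union, mem_filter, Finset.mem_singleton]
      by_cases h2 : r = 2
      · right; left; exact h2
      · by_cases h3 : orderOf (2 : ZMod r) ≤ T
        · right; right; exact ⟨hr, h2, h3⟩
        · left; exact ⟨hr, h2, not_le.mp h3⟩
    have h2 := Finset.card_le_card h1
    have h3 : (P.filter (fun r => r ≠ 2 ∧ orderOf (2 : ZMod r) ≤ T)).card ≤ T ^ 2 := by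
      apply small_order_card
      intro r hr
      simp only [hP, mem_filter] at hr
      exact ⟨hr.1.2, hr.2.1, hr.2.2⟩
    have h4 := Finset.card_union_le R ({2} ∪ P.filter (fun r => r ≠ 2 ∧ orderOf (2 : ZMod r) ≤ T))
    have h5 := Finset.card_union_le {2} (P.filter (fun r => r ≠ 2 ∧ orderOf (2 : ZMod r) ≤ T))
    simp only [Finset.card_singleton] at h5
    omega
  let e : Fin u → Fin n0 → ℕ := fun j i =>
    R.orderEmbOfFin rfl (Fin.castLE hRcard (finProdFinEquiv (j, i)))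
  have hemem : ∀ j i, e j i ∈ R := fun j i => Finset.orderEmbOfFin_mem R rfl _
  have heP : ∀ j i, (e j i).Prime ∧ e j i ≤ Y ∧ e j i ≠ 2 ∧ T < orderOf (2 : ZMod (e j i)) := by
    intro j i
    have h := hemem j i
    simp only [hR, hP, mem_filter, Finset.mem_range] at h
    exact ⟨h.1.2, by omega, h.2.1, h.2.2⟩
  have hinj : ∀ j i j' i', e j i = e j' i' → j = j' ∧ i = i' := by
    intro j i j' i' h
    have h1 := (R.orderEmbOfFin rfl).injective h
    have h2 := Fin.castLE_injective hRcard h1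
    have h3 := finProdFinEquiv.injective h2
    exact Prod.mk.inj h3
  set D : ℝ := (Y : ℝ) / (T + 1) with hD
  have hDe : ∀ j i, (e j i : ℝ) ≤ D * (Ω (e j i)).card := by
    intro j i
    obtain ⟨h1, h2, h3, h4⟩ := heP j i
    have h6 : ((T + 1 : ℕ) : ℝ) ≤ (Ω (e j i)).card := by exact_mod_cast hcard _ h1 h3 h4
    have h7 : (e j i : ℝ) ≤ Y := by exact_mod_cast h2
    have h8 : (0 : ℝ) < T + 1 := by positivity
    calc (e j i : ℝ) ≤ Y := h7
      _ = D * (T + 1) := by rw [hD]; field_simp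
      _ ≤ D * (Ω (e j i)).card := by
          apply mul_le_mul_of_nonneg_left _ (by positivity)
          push_cast at h6
          exact h6
  have hne : ∀ j i, 0 < (Ω (e j i)).card := by
    intro j i
    obtain ⟨h1, h2, h3, h4⟩ := heP j i
    have h5 := hcard _ h1 h3 h4
    omega
  apply sieve_bound hX hn0 hY e (fun j i => (heP j i).1) (fun j i => (heP j i).2.1) hinj Ω
    (fun j i => hΩ _) hne hDe S hS
  intro y hy j i
  obtain ⟨h1, h2, h3, h4⟩ := heP j i
  exact hSΩ y hy _ h1 h3 h2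

/-- finite form of the rarity theorem, chains at any height -/
theorem finite_bound {X Y T u n0 : ℕ} (hX : 1 ≤ X) (hn0 : 1 ≤ n0) (hY : Y ^ (2 * u) ≤ 6 * X)
    (hcount : u * n0 + T ^ 2 + 1 ≤ Nat.primeCounting Y) :
    (Set.ncard {y : ℕ | y ≤ X ∧ Y + 2 ≤ y ∧ ∃ k a, Y ≤ k ∧ ChainAt y a k} : ℝ)
      ≤ 48 * X * ((Y / (T + 1)) / n0) ^ u := by
  classical
  let S : ℤ → Finset ℕ := fun s =>
    (range (X + 1)).filter (fun y => ∀ r : ℕ, r.Prime → r ≠ 2 → r ≤ Y → y % r ∉ Om s r)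
  have hSb : ∀ s : ℤ, (s = 1 ∨ s = -1) →
      ((S s).card : ℝ) ≤ 24 * X * ((Y / (T + 1)) / n0) ^ u := by
    intro s hs
    apply sift hX hn0 hY hcount (Om s) (Om_subset s)
    · intro r hr hr2 hT
      exact le_trans hT (Om_card hs hr hr2)
    · intro y hy
      simp only [S, mem_filter, Finset.mem_range] at hy
      omega
    · intro y hy
      simp only [S, mem_filter, Finset.mem_range] at hy
      exact hy.2
  have hsub : {y : ℕ | y ≤ X ∧ Y + 2 ≤ y ∧ ∃ k a, Y ≤ k ∧ ChainAt y a k}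
      ⊆ (S 1 ∪ S (-1) : Finset ℕ) := by
    rintro y ⟨hyX, hyY, k, a, hk, hc⟩
    obtain ⟨s, hs, hav⟩ := avoid hyY hk hc
    have hmem : y ∈ S s := by
      simp only [S, mem_filter, Finset.mem_range]
      exact ⟨by omega, hav⟩
    rw [Finset.mem_coe, Finset.mem_union]
    rcases hs with rfl | rfl
    · exact Or.inl hmem
    · exact Or.inr hmem
  have h1 := Set.ncard_le_ncard hsub (Finset.finite_toSet _)
  rw [Set.ncard_coe_finset] at h1
  have h2 := Finset.card_union_le (S 1) (S (-1))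
  have h3 := hSb 1 (Or.inl rfl)
  have h4 := hSb (-1) (Or.inr rfl)
  calc (Set.ncard {y : ℕ | y ≤ X ∧ Y + 2 ≤ y ∧ ∃ k a, Y ≤ k ∧ ChainAt y a k} : ℝ)
      ≤ ((S 1).card + (S (-1)).card : ℝ) := by exact_mod_cast le_trans h1 h2
    _ ≤ 24 * X * ((Y / (T + 1)) / n0) ^ u + 24 * X * ((Y / (T + 1)) / n0) ^ u := add_le_add h3 h4
    _ = 48 * X * ((Y / (T + 1)) / n0) ^ u := by ring

/-- finite form of the rarity theorem, chains at bounded height -/
theorem finite_boundA {X Y T u n0 N : ℕ} (hX : 1 ≤ X) (hn0 : 1 ≤ n0) (hY : Y ^ (2 * u) ≤ 6 * X)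
    (hcount : u * n0 + T ^ 2 + 1 ≤ Nat.primeCounting Y) :
    (Set.ncard {y : ℕ | y ≤ X ∧ Y + 2 ≤ y ∧ ∃ k a, T + 1 ≤ k ∧ a < N ∧ ChainAt y a k} : ℝ)
      ≤ N * (48 * X * ((Y / (T + 1)) / n0) ^ u) := by
  classical
  let S : ℤ → ℕ → Finset ℕ := fun s a =>
    (range (X + 1)).filter (fun y => ∀ r : ℕ, r.Prime → r ≠ 2 → r ≤ Y → y % r ∉ OmA s a (T + 1) r)
  have hSb : ∀ (s : ℤ) (a : ℕ), (s = 1 ∨ s = -1) →
      ((S s a).card : ℝ) ≤ 24 * X * ((Y / (T + 1)) / n0) ^ u := by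
    intro s a hs
    apply sift hX hn0 hY hcount (OmA s a (T + 1)) (OmA_subset s a (T + 1))
    · intro r hr hr2 hT
      exact OmA_card hs hr hr2 a hT
    · intro y hy
      simp only [S, mem_filter, Finset.mem_range] at hy
      omega
    · intro y hy
      simp only [S, mem_filter, Finset.mem_range] at hy
      exact hy.2
  have hsub : {y : ℕ | y ≤ X ∧ Y + 2 ≤ y ∧ ∃ k a, T + 1 ≤ k ∧ a < N ∧ ChainAt y a k}
      ⊆ ((range N).biUnion (fun a => S 1 a ∪ S (-1) a) : Finset ℕ) := by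
    rintro y ⟨hyX, hyY, k, a, hk, ha, hc⟩
    obtain ⟨s, hs, hav⟩ := avoidA hyY hk hc
    have hmem : y ∈ S s a := by
      simp only [S, mem_filter, Finset.mem_range]
      exact ⟨by omega, hav⟩
    rw [Finset.mem_coe, Finset.mem_biUnion]
    refine ⟨a, Finset.mem_range.mpr ha, ?_⟩
    rw [Finset.mem_union]
    rcases hs with rfl | rfl
    · exact Or.inl hmem
    · exact Or.inr hmem
  have h1 := Set.ncard_le_ncard hsub (Finset.finite_toSet _)
  rw [Set.ncard_coe_finset] at h1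
  have h2 : (((range N).biUnion (fun a => S 1 a ∪ S (-1) a)).card : ℝ)
      ≤ ∑ a ∈ range N, (48 * X * ((Y / (T + 1)) / n0) ^ u : ℝ) := by
    calc (((range N).biUnion (fun a => S 1 a ∪ S (-1) a)).card : ℝ)
        ≤ ((∑ a ∈ range N, (S 1 a ∪ S (-1) a).card : ℕ) : ℝ) := by
          exact_mod_cast Finset.card_biUnion_le
      _ = ∑ a ∈ range N, ((S 1 a ∪ S (-1) a).card : ℝ) := by push_cast; rfl
      _ ≤ _ := by
          apply Finset.sum_le_sum
          intro a _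
          have h3 := hSb 1 a (Or.inl rfl)
          have h4 := hSb (-1) a (Or.inr rfl)
          calc ((S 1 a ∪ S (-1) a).card : ℝ) ≤ ((S 1 a).card + (S (-1) a).card : ℝ) := by
                exact_mod_cast Finset.card_union_le (S 1 a) (S (-1) a)
            _ ≤ 24 * X * ((Y / (T + 1)) / n0) ^ u + 24 * X * ((Y / (T + 1)) / n0) ^ u :=
                add_le_add h3 h4
            _ = 48 * X * ((Y / (T + 1)) / n0) ^ u := by ring
  rw [Finset.sum_const, Finset.card_range, nsmul_eq_mul] at h2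
  exact le_trans (by exact_mod_cast h1) h2


open Filter Topology

theorem eventually_pi (η : ℝ) (hη : 0 < η) :
    ∀ᶠ Y : ℕ in atTop, (Y : ℝ) ^ (1 - η) ≤ Nat.primeCounting Y := by
  have hlog2 : 0 < Real.log 2 := Real.log_pos (by norm_num)
  have h1 : ∀ᶠ x : ℝ in atTop, ‖Real.log x‖ ≤ (Real.log 2 / 2) * ‖x ^ η‖ :=
    (isLittleO_log_rpow_atTop hη).bound (by positivity)
  have h2 : ∀ᶠ x : ℝ in atTop, ‖Real.log x‖ ≤ (Real.log 2 / 4) * ‖x ^ (1 : ℝ)‖ :=
    (isLittleO_log_rpow_atTop one_pos).bound (by positivity)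
  have hcast : Tendsto (fun n : ℕ => (n : ℝ)) atTop atTop := tendsto_natCast_atTop_atTop
  have hcast1 : Tendsto (fun n : ℕ => (n : ℝ) + 1) atTop atTop :=
    tendsto_atTop_add_const_right _ _ hcast
  filter_upwards [hcast.eventually h1, hcast1.eventually h2, eventually_ge_atTop 3] with Y hY1 hY2 hY3
  have hYr : (3 : ℝ) ≤ Y := by exact_mod_cast hY3
  have hYpos : (0 : ℝ) < Y := by linarith
  have hlogY : 0 < Real.log Y := Real.log_pos (by linarith)
  have hge := Chebyshev.pi_ge Y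
  have hb1 : Real.log Y ≤ (Real.log 2 / 2) * (Y : ℝ) ^ η := by
    have h3 : (0 : ℝ) ≤ (Y : ℝ) ^ η := by positivity
    rwa [Real.norm_of_nonneg hlogY.le, Real.norm_of_nonneg h3] at hY1
  have hb2 : Real.log ((Y : ℝ) + 1) ≤ (Real.log 2 / 2) * Y := by
    have h3 : (0 : ℝ) ≤ Real.log ((Y : ℝ) + 1) := Real.log_nonneg (by linarith)
    rw [Real.rpow_one, Real.norm_of_nonneg h3, Real.norm_of_nonneg (by positivity)] at hY2
    nlinarith
  have h4 : (Y : ℝ) ^ (1 - η) * Real.log Y ≤ Y * Real.log 2 - Real.log (Y + 1) := by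
    have h5 : (Y : ℝ) ^ (1 - η) * (Y : ℝ) ^ η = Y := by
      rw [← Real.rpow_add hYpos]; simp
    calc (Y : ℝ) ^ (1 - η) * Real.log Y ≤ (Y : ℝ) ^ (1 - η) * ((Real.log 2 / 2) * (Y : ℝ) ^ η) := by
          apply mul_le_mul_of_nonneg_left hb1 (by positivity)
      _ = (Real.log 2 / 2) * Y := by
          rw [mul_comm ((Real.log 2) / 2), ← mul_assoc, h5]; ring
      _ ≤ Y * Real.log 2 - Real.log (Y + 1) := by linarith
  calc (Y : ℝ) ^ (1 - η) ≤ (Y * Real.log 2 - Real.log (Y + 1)) / Real.log Y := by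
        rw [le_div_iff₀ hlogY]; exact h4
    _ ≤ Nat.primeCounting Y := hge

/-- facts about large `Y` -/
theorem eventually_Y (A η : ℝ) (hA : 2 < A) (hη : 0 < η) (hη1 : 5 * η ≤ 1 / 2 - 1 / A) :
    ∀ᶠ Y : ℕ in atTop, 2 ≤ Y ∧
      4 * (Y : ℝ) ^ (1 - 2 * η) + (Y : ℝ) ^ (1 - 2 * η) + 1 ≤ Nat.primeCounting Y ∧
      (2 : ℝ) ≤ (Y : ℝ) ^ η ∧ (2 : ℝ) ≤ (Y : ℝ) ^ (1 - 1 / A - 2 * η) := by
  have hAinv : 0 < 1 / A := by positivity
  have hcast : Tendsto (fun n : ℕ => (n : ℝ)) atTop atTop := tendsto_natCast_atTop_atTop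
  have hβ : 0 < 1 - 1 / A - 2 * η := by linarith
  have e1 : ∀ᶠ Y : ℕ in atTop, (6 : ℝ) ≤ (Y : ℝ) ^ η :=
    ((tendsto_rpow_atTop hη).comp hcast).eventually_ge_atTop 6
  have e2 : ∀ᶠ Y : ℕ in atTop, (2 : ℝ) ≤ (Y : ℝ) ^ (1 - 1 / A - 2 * η) :=
    ((tendsto_rpow_atTop hβ).comp hcast).eventually_ge_atTop 2
  filter_upwards [e1, e2, eventually_pi η hη, eventually_ge_atTop 2] with Y h1 h2 h3 h4
  have hYr : (2 : ℝ) ≤ Y := by exact_mod_cast h4
  have hYpos : (0 : ℝ) < Y := by linarith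
  refine ⟨h4, ?_, by linarith, h2⟩
  have h5 : (1 : ℝ) ≤ (Y : ℝ) ^ (1 - 2 * η) := Real.one_le_rpow (by linarith) (by linarith)
  have h6 : (Y : ℝ) ^ (1 - η) = (Y : ℝ) ^ (1 - 2 * η) * (Y : ℝ) ^ η := by
    rw [← Real.rpow_add hYpos]; congr 1; ring
  calc 4 * (Y : ℝ) ^ (1 - 2 * η) + (Y : ℝ) ^ (1 - 2 * η) + 1
      ≤ (Y : ℝ) ^ (1 - 2 * η) * 6 := by linarith
    _ ≤ (Y : ℝ) ^ (1 - 2 * η) * (Y : ℝ) ^ η := by
        apply mul_le_mul_of_nonneg_left h1 (by positivity)
    _ = (Y : ℝ) ^ (1 - η) := h6.symm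
    _ ≤ Nat.primeCounting Y := h3

set_option maxHeartbeats 1000000 in
/-- the analytic choice of parameters -/
theorem eventually_params (A η : ℝ) (hA : 2 < A) (hη : 0 < η) (hη1 : 5 * η ≤ 1 / 2 - 1 / A) :
    ∀ᶠ X : ℕ in atTop, 3 ≤ X ∧ ∃ Y T u n0 : ℕ, 1 ≤ n0 ∧ Y ^ (2 * u) ≤ 6 * X ∧
      u * n0 + T ^ 2 + 1 ≤ Nat.primeCounting Y ∧ (Y : ℝ) ≤ (Real.log X / 2) ^ A ∧
      (Y : ℝ) + 2 ≤ (X : ℝ) ^ (1 / 2 : ℝ) ∧ (T : ℝ) + 1 ≤ (Y : ℝ) ^ (1 / 2 : ℝ) ∧
      (48 : ℝ) * X * (((Y : ℝ) / (T + 1)) / n0) ^ u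
        ≤ 48 * (X : ℝ) ^ (3 / 4 + 1 / (2 * A) + 3 * η) := by
  have hA0 : 0 < A := by linarith
  have hAinv : 0 < 1 / A := by positivity
  have hcast : Tendsto (fun n : ℕ => (n : ℝ)) atTop atTop := tendsto_natCast_atTop_atTop
  have hlogt : Tendsto (fun n : ℕ => Real.log n) atTop atTop := Real.tendsto_log_atTop.comp hcast
  have hhalf : Tendsto (fun n : ℕ => Real.log n / 2) atTop atTop :=
    hlogt.atTop_div_const (by norm_num)
  have hYr : Tendsto (fun n : ℕ => (Real.log n / 2) ^ A) atTop atTop :=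
    (tendsto_rpow_atTop hA0).comp hhalf
  have hYn : Tendsto (fun n : ℕ => ⌊(Real.log n / 2) ^ A⌋₊) atTop atTop :=
    tendsto_nat_floor_atTop.comp hYr
  -- (log X / 2)^A ≤ X^η / 2, say
  have hsmall : ∀ᶠ n : ℕ in atTop, (Real.log n / 2) ^ A ≤ (n : ℝ) ^ η := by
    have h1 : (fun x : ℝ => Real.log x ^ A) =o[atTop] fun x => x ^ η :=
      isLittleO_log_rpow_rpow_atTop A hη
    have h2 := hcast.eventually (h1.bound (one_pos))
    filter_upwards [h2, eventually_ge_atTop 3] with n hn hn3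
    have hn3' : (3 : ℝ) ≤ n := by exact_mod_cast hn3
    have hl : 0 ≤ Real.log n := Real.log_nonneg (by linarith)
    rw [one_mul, Real.norm_of_nonneg (by positivity), Real.norm_of_nonneg (by positivity)] at hn
    calc (Real.log n / 2) ^ A ≤ (Real.log n) ^ A := by
          apply Real.rpow_le_rpow (by positivity) (by linarith) hA0.le
      _ ≤ _ := hn
  have hηhalf : η < 1 / 2 := by linarith
  -- X^η + 3 ≤ √X
  have hroot : ∀ᶠ n : ℕ in atTop, (n : ℝ) ^ η + 3 ≤ (n : ℝ) ^ (1 / 2 : ℝ) := by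
    have h1 : Tendsto (fun x : ℝ => x ^ (1 / 2 - η)) atTop atTop :=
      tendsto_rpow_atTop (by linarith)
    filter_upwards [(h1.comp hcast).eventually_ge_atTop 4, eventually_ge_atTop 1] with n hn hn1
    have hnr : (1 : ℝ) ≤ n := by exact_mod_cast hn1
    have hnpos : (0 : ℝ) < n := by linarith
    have h2 : (n : ℝ) ^ (1 / 2 : ℝ) = (n : ℝ) ^ (1 / 2 - η) * (n : ℝ) ^ η := by
      rw [← Real.rpow_add hnpos]; congr 1; ring
    have h3 : (1 : ℝ) ≤ (n : ℝ) ^ η := Real.one_le_rpow hnr hη.le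
    have h4 : (4 : ℝ) ≤ (n : ℝ) ^ (1 / 2 - η) := hn
    rw [h2]
    nlinarith
  filter_upwards [hYn.eventually (eventually_Y A η hA hη hη1), hsmall, hroot,
    eventually_ge_atTop 3] with X hYfacts hX1 hX2 hX3
  set Y := ⌊(Real.log X / 2) ^ A⌋₊ with hYdef
  obtain ⟨hY2, hYpi, hYη, hYβ⟩ := hYfacts
  have hXr : (3 : ℝ) ≤ X := by exact_mod_cast hX3
  have hXpos : (0 : ℝ) < X := by linarith
  set L := Real.log X with hL
  have hLpos : 0 < L := Real.log_pos (by linarith)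
  have hYr2 : (2 : ℝ) ≤ Y := by exact_mod_cast hY2
  have hYpos : (0 : ℝ) < Y := by linarith
  have hlogY : 0 < Real.log Y := Real.log_pos (by linarith)
  have hYle : (Y : ℝ) ≤ (L / 2) ^ A := Nat.floor_le (by positivity)
  have hYlt : (L / 2) ^ A < Y + 1 := Nat.lt_floor_add_one _
  -- parameters
  set β := 1 - 1 / A - 2 * η with hβ
  set T := ⌊(Y : ℝ) ^ (1 / 2 - η)⌋₊ with hT
  set n0 := ⌊(Y : ℝ) ^ β⌋₊ with hn0
  set u := ⌊L / (2 * Real.log Y)⌋₊ with hu
  have hn0pos : 1 ≤ n0 := by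
    rw [hn0, Nat.one_le_floor_iff]
    linarith
  have hTle : (T : ℝ) ≤ (Y : ℝ) ^ (1 / 2 - η) := Nat.floor_le (by positivity)
  have hTlt : (Y : ℝ) ^ (1 / 2 - η) < T + 1 := Nat.lt_floor_add_one _
  have hn0le : (n0 : ℝ) ≤ (Y : ℝ) ^ β := Nat.floor_le (by positivity)
  have hn0lt : (Y : ℝ) ^ β < n0 + 1 := Nat.lt_floor_add_one _
  have hule : (u : ℝ) ≤ L / (2 * Real.log Y) := Nat.floor_le (by positivity)
  have hult : L / (2 * Real.log Y) < u + 1 := Nat.lt_floor_add_one _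
  -- Y^(2u) ≤ 6X
  have hYu : Y ^ (2 * u) ≤ 6 * X := by
    have h1 : ((Y ^ (2 * u) : ℕ) : ℝ) ≤ X := by
      push_cast
      rw [← Real.rpow_natCast, ← Real.exp_log hYpos, ← Real.exp_mul]
      have h2 : Real.log Y * ((2 * u : ℕ) : ℝ) ≤ L := by
        push_cast
        have h3 := mul_le_mul_of_nonneg_right hule (by positivity : (0 : ℝ) ≤ 2 * Real.log Y)
        rw [div_mul_cancel₀ _ (by positivity)] at h3
        linarith
      calc Real.exp (Real.log Y * ((2 * u : ℕ) : ℝ)) ≤ Real.exp L := Real.exp_le_exp.mpr h2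
        _ = X := Real.exp_log hXpos
    have h2 : Y ^ (2 * u) ≤ X := by exact_mod_cast h1
    omega
  -- count
  have hLY : L ≤ 4 * (Y : ℝ) ^ (1 / A) := by
    have h1 : L / 2 = ((L / 2) ^ A) ^ (1 / A) := by
      rw [← Real.rpow_mul (by positivity), mul_one_div_cancel hA0.ne', Real.rpow_one]
    have h2 : ((L / 2) ^ A) ^ (1 / A) ≤ (2 * (Y : ℝ)) ^ (1 / A) := by
      apply Real.rpow_le_rpow (by positivity) (by linarith) hAinv.le
    have h3 : (2 * (Y : ℝ)) ^ (1 / A) ≤ 2 * (Y : ℝ) ^ (1 / A) := by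
      rw [Real.mul_rpow (by norm_num) hYpos.le]
      apply mul_le_mul_of_nonneg_right _ (by positivity)
      calc (2 : ℝ) ^ (1 / A) ≤ 2 ^ (1 : ℝ) := by
            apply Real.rpow_le_rpow_of_exponent_le (by norm_num)
            rw [div_le_one hA0]; linarith
        _ = 2 := Real.rpow_one 2
    linarith
  have huL : (u : ℝ) ≤ L := by
    have h1 : (1 : ℝ) ≤ 2 * Real.log Y := by
      have h2 : Real.log 2 ≤ Real.log Y := Real.log_le_log (by norm_num) hYr2
      have h3 : (0.69 : ℝ) < Real.log 2 := by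
        have := Real.log_two_gt_d9
        linarith
      linarith
    calc (u : ℝ) ≤ L / (2 * Real.log Y) := hule
      _ ≤ L / 1 := by
          apply div_le_div_of_nonneg_left hLpos.le (by norm_num) h1
      _ = L := div_one L
  have hcount : u * n0 + T ^ 2 + 1 ≤ Nat.primeCounting Y := by
    have h1 : (u : ℝ) * n0 ≤ 4 * (Y : ℝ) ^ (1 - 2 * η) := by
      calc (u : ℝ) * n0 ≤ (4 * (Y : ℝ) ^ (1 / A)) * (Y : ℝ) ^ β :=
            mul_le_mul (le_trans huL hLY) hn0le (by positivity) (by positivity)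
        _ = 4 * (Y : ℝ) ^ (1 - 2 * η) := by
            rw [mul_assoc, ← Real.rpow_add hYpos]
            congr 2
            rw [hβ]; ring
    have h2 : (T : ℝ) ^ 2 ≤ (Y : ℝ) ^ (1 - 2 * η) := by
      calc (T : ℝ) ^ 2 ≤ ((Y : ℝ) ^ (1 / 2 - η)) ^ 2 := pow_le_pow_left₀ (by positivity) hTle 2
        _ = (Y : ℝ) ^ (1 - 2 * η) := by
            rw [← Real.rpow_natCast, ← Real.rpow_mul hYpos.le]
            congr 1
            push_cast; ring
    have h3 : ((u * n0 + T ^ 2 + 1 : ℕ) : ℝ) ≤ Nat.primeCounting Y := by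
      push_cast
      linarith
    exact_mod_cast h3
  -- base estimate
  set κ := 1 / 2 - 1 / A - 4 * η with hκ
  have hκ0 : 0 < κ := by linarith
  have hbase : ((Y : ℝ) / (T + 1)) / n0 ≤ (Y : ℝ) ^ (-κ) := by
    have hT1 : (0 : ℝ) < T + 1 := by positivity
    have hn0r : (0 : ℝ) < n0 := by exact_mod_cast hn0pos
    have h1 : (Y : ℝ) / (T + 1) ≤ (Y : ℝ) ^ (1 / 2 + η) := by
      rw [div_le_iff₀ hT1]
      calc (Y : ℝ) = (Y : ℝ) ^ (1 / 2 + η) * (Y : ℝ) ^ (1 / 2 - η) := by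
            rw [← Real.rpow_add hYpos]
            have : 1 / 2 + η + (1 / 2 - η) = 1 := by ring
            rw [this, Real.rpow_one]
        _ ≤ (Y : ℝ) ^ (1 / 2 + η) * (T + 1) := by
            apply mul_le_mul_of_nonneg_left hTlt.le (by positivity)
    have h2 : (Y : ℝ) ^ β ≤ 2 * n0 := by
      have : (1 : ℝ) ≤ n0 := by exact_mod_cast hn0pos
      linarith
    rw [div_le_iff₀ hn0r]
    calc (Y : ℝ) / (T + 1) ≤ (Y : ℝ) ^ (1 / 2 + η) := h1
      _ = (Y : ℝ) ^ (-κ) * ((Y : ℝ) ^ β / (Y : ℝ) ^ η) := by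
          rw [← Real.rpow_sub hYpos, ← Real.rpow_add hYpos]
          congr 1
          rw [hκ, hβ]; ring
      _ ≤ (Y : ℝ) ^ (-κ) * n0 := by
          apply mul_le_mul_of_nonneg_left _ (by positivity)
          rw [div_le_iff₀ (by positivity)]
          calc (Y : ℝ) ^ β ≤ 2 * n0 := h2
            _ ≤ (Y : ℝ) ^ η * n0 := by
                apply mul_le_mul_of_nonneg_right hYη (by positivity)
            _ = n0 * (Y : ℝ) ^ η := mul_comm _ _
  have hpow : (((Y : ℝ) / (T + 1)) / n0) ^ u ≤ (X : ℝ) ^ (-(κ / 2)) * (Y : ℝ) := by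
    calc (((Y : ℝ) / (T + 1)) / n0) ^ u ≤ ((Y : ℝ) ^ (-κ)) ^ u :=
          pow_le_pow_left₀ (by positivity) hbase u
      _ = Real.exp (-(κ * (u * Real.log Y))) := by
          rw [← Real.rpow_natCast, ← Real.rpow_mul hYpos.le, Real.rpow_def_of_pos hYpos]
          congr 1
          ring
      _ ≤ Real.exp (-(κ / 2) * L + Real.log Y) := by
          apply Real.exp_le_exp.mpr
          have h1 : L / 2 - Real.log Y ≤ u * Real.log Y := by
            have h2 := mul_le_mul_of_nonneg_right hult.le (by positivity : (0 : ℝ) ≤ 2 * Real.log Y)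
            rw [div_mul_cancel₀ _ (by positivity)] at h2
            linarith
          have h3 : κ ≤ 1 := by linarith
          have h4 := mul_le_mul_of_nonneg_left h1 hκ0.le
          nlinarith
      _ = (X : ℝ) ^ (-(κ / 2)) * (Y : ℝ) := by
          rw [Real.exp_add, Real.exp_log hYpos, Real.rpow_def_of_pos hXpos, ← hL]
          congr 2
          ring
  have hYX : (Y : ℝ) ≤ (X : ℝ) ^ η := le_trans hYle hX1
  have hθ : (3 : ℝ) / 4 + 1 / (2 * A) + 3 * η = 1 - κ / 2 + η := by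
    rw [hκ]
    field_simp
    ring
  have hmain : (48 : ℝ) * X * (((Y : ℝ) / (T + 1)) / n0) ^ u
      ≤ 48 * (X : ℝ) ^ (3 / 4 + 1 / (2 * A) + 3 * η) := by
    calc (48 : ℝ) * X * (((Y : ℝ) / (T + 1)) / n0) ^ u
        ≤ 48 * X * ((X : ℝ) ^ (-(κ / 2)) * (X : ℝ) ^ η) := by
          apply mul_le_mul_of_nonneg_left _ (by positivity)
          exact le_trans hpow (mul_le_mul_of_nonneg_left hYX (by positivity))
      _ = 48 * (X : ℝ) ^ (3 / 4 + 1 / (2 * A) + 3 * η) := by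
          rw [hθ, mul_assoc, ← Real.rpow_add hXpos]
          congr 1
          nth_rewrite 1 [← Real.rpow_one (X : ℝ)]
          rw [← Real.rpow_add hXpos]
          congr 1
          ring
  have hTsq : (T : ℝ) + 1 ≤ (Y : ℝ) ^ (1 / 2 : ℝ) := by
    have h1 : (Y : ℝ) ^ (1 / 2 : ℝ) = (Y : ℝ) ^ (1 / 2 - η) * (Y : ℝ) ^ η := by
      rw [← Real.rpow_add hYpos]; congr 1; ring
    have h2 : (1 : ℝ) ≤ (Y : ℝ) ^ (1 / 2 - η) := Real.one_le_rpow (by linarith) (by linarith)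
    rw [h1]
    nlinarith
  refine ⟨hX3, Y, T, u, n0, hn0pos, hYu, hcount, hYle, by linarith, hTsq, hmain⟩

/-- splitting off the `y ≤ √X` -/
theorem split_small {X Z : ℕ} (hX : 3 ≤ X) {P : ℕ → Prop} {B θ : ℝ} (hθ : 1 / 2 ≤ θ)
    (hZ : (Z : ℝ) ≤ (X : ℝ) ^ (1 / 2 : ℝ))
    (hB : (Set.ncard {y : ℕ | y ≤ X ∧ Z ≤ y ∧ (X : ℝ) ^ (1 / 2 : ℝ) < y ∧ P y} : ℝ)
      ≤ B * (X : ℝ) ^ θ) :
    (Set.ncard {y : ℕ | y ≤ X ∧ P y} : ℝ) ≤ (B + 2) * (X : ℝ) ^ θ := by
  classical
  have hXr : (3 : ℝ) ≤ X := by exact_mod_cast hX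
  have hXpos : (0 : ℝ) < X := by linarith
  have hsplit : {y : ℕ | y ≤ X ∧ P y}
      ⊆ (Finset.range (⌊(X : ℝ) ^ (1 / 2 : ℝ)⌋₊ + 1) : Set ℕ) ∪
        {y : ℕ | y ≤ X ∧ Z ≤ y ∧ (X : ℝ) ^ (1 / 2 : ℝ) < y ∧ P y} := by
    rintro y ⟨hyX, hP⟩
    by_cases hy : y ≤ ⌊(X : ℝ) ^ (1 / 2 : ℝ)⌋₊
    · left
      simp only [coe_range, Set.mem_Iio]
      omega
    · right
      have hy' : (X : ℝ) ^ (1 / 2 : ℝ) < y := by
        rw [not_le] at hy
        exact (Nat.floor_lt (by positivity)).mp hy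
      refine ⟨hyX, ?_, hy', hP⟩
      have h1 : ((Z : ℕ) : ℝ) ≤ y := by linarith
      exact_mod_cast h1
  have hfinite : {y : ℕ | y ≤ X ∧ Z ≤ y ∧ (X : ℝ) ^ (1 / 2 : ℝ) < y ∧ P y}.Finite :=
    (Set.finite_Iic X).subset (fun y hy => hy.1)
  have hn1 := Set.ncard_le_ncard hsplit ((Finset.finite_toSet _).union hfinite)
  have hn2 := Set.ncard_union_le (Finset.range (⌊(X : ℝ) ^ (1 / 2 : ℝ)⌋₊ + 1) : Set ℕ)
    {y : ℕ | y ≤ X ∧ Z ≤ y ∧ (X : ℝ) ^ (1 / 2 : ℝ) < y ∧ P y}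
  rw [Set.ncard_coe_finset, Finset.card_range] at hn2
  have hn3 : (Set.ncard {y : ℕ | y ≤ X ∧ P y} : ℝ)
      ≤ (⌊(X : ℝ) ^ (1 / 2 : ℝ)⌋₊ + 1 : ℕ) +
        (Set.ncard {y : ℕ | y ≤ X ∧ Z ≤ y ∧ (X : ℝ) ^ (1 / 2 : ℝ) < y ∧ P y} : ℝ) := by
    exact_mod_cast le_trans hn1 hn2
  have hsq : ((⌊(X : ℝ) ^ (1 / 2 : ℝ)⌋₊ + 1 : ℕ) : ℝ) ≤ 2 * (X : ℝ) ^ θ := by
    push_cast
    have h1 : (⌊(X : ℝ) ^ (1 / 2 : ℝ)⌋₊ : ℝ) ≤ (X : ℝ) ^ (1 / 2 : ℝ) := Nat.floor_le (by positivity)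
    have h2 : (X : ℝ) ^ (1 / 2 : ℝ) ≤ (X : ℝ) ^ θ :=
      Real.rpow_le_rpow_of_exponent_le (by linarith) hθ
    have h3 : (1 : ℝ) ≤ (X : ℝ) ^ (1 / 2 : ℝ) := Real.one_le_rpow (by linarith) (by norm_num)
    linarith
  linarith

/-- from an eventual bound to a bound for all `X ≥ 1` -/
theorem of_eventually {θ θ' B : ℝ} (hθ : θ' ≤ θ) (hθ0 : 0 ≤ θ) (hB : 0 ≤ B) {P : ℕ → ℕ → Prop}
    (h : ∀ᶠ X : ℕ in atTop,
      (Set.ncard {y : ℕ | y ≤ X ∧ P X y} : ℝ) ≤ B * (X : ℝ) ^ θ') :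
    ∃ C : ℝ, ∀ X : ℕ, 1 ≤ X →
      (Set.ncard {y : ℕ | y ≤ X ∧ P X y} : ℝ) ≤ C * (X : ℝ) ^ θ := by
  obtain ⟨X0, hX0⟩ := eventually_atTop.mp h
  refine ⟨B + X0 + 1, ?_⟩
  intro X hX1
  have hXr : (1 : ℝ) ≤ X := by exact_mod_cast hX1
  have hone : (1 : ℝ) ≤ (X : ℝ) ^ θ := Real.one_le_rpow hXr hθ0
  have h0 : (0 : ℝ) ≤ X0 := by positivity
  rcases le_or_gt X0 X with h | h
  · calc (Set.ncard {y : ℕ | y ≤ X ∧ P X y} : ℝ)
        ≤ B * (X : ℝ) ^ θ' := hX0 X h
      _ ≤ B * (X : ℝ) ^ θ := by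
          apply mul_le_mul_of_nonneg_left _ hB
          exact Real.rpow_le_rpow_of_exponent_le hXr hθ
      _ ≤ (B + X0 + 1) * (X : ℝ) ^ θ := by
          apply mul_le_mul_of_nonneg_right _ (by linarith)
          linarith
  · have h1 : {y : ℕ | y ≤ X ∧ P X y} ⊆ (Finset.range (X + 1) : Set ℕ) := by
      rintro y ⟨hy, -⟩
      simp only [coe_range, Set.mem_Iio]
      omega
    have h2 := Set.ncard_le_ncard h1 (Finset.finite_toSet _)
    rw [Set.ncard_coe_finset, Finset.card_range] at h2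
    have h3 : (Set.ncard {y : ℕ | y ≤ X ∧ P X y} : ℝ) ≤ X0 + 1 := by
      have : Set.ncard {y : ℕ | y ≤ X ∧ P X y} ≤ X0 + 1 := by
        omega
      exact_mod_cast this
    nlinarith

theorem log_ge_half {X y : ℕ} (hX : 3 ≤ X) (hy : (X : ℝ) ^ (1 / 2 : ℝ) < y) :
    Real.log X / 2 ≤ Real.log y := by
  have hXr : (3 : ℝ) ≤ X := by exact_mod_cast hX
  have hXpos : (0 : ℝ) < X := by linarith
  have h1 : Real.log ((X : ℝ) ^ (1 / 2 : ℝ)) = Real.log X / 2 := by
    rw [Real.log_rpow hXpos]; ring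
  rw [← h1]
  exact Real.log_le_log (by positivity) hy.le

/-- chains at any height -/
theorem rare_any (A ε : ℝ) (hA : 2 < A) (hε : 0 < ε) :
    ∃ C : ℝ, ∀ X : ℕ, 1 ≤ X →
      (Set.ncard {y : ℕ | y ≤ X ∧ ∃ k a : ℕ, (Real.log y) ^ A ≤ k ∧ ChainAt y a k} : ℝ)
        ≤ C * (X : ℝ) ^ (3 / 4 + 1 / (2 * A) + ε) := by
  have hA0 : 0 < A := by linarith
  have hgap : 0 < 1 / 2 - 1 / A := by
    have : 1 / A < 1 / 2 := one_div_lt_one_div_of_lt (by norm_num) hA
    linarith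
  set η := min (ε / 3) ((1 / 2 - 1 / A) / 5) with hηdef
  have hη : 0 < η := lt_min (by positivity) (by positivity)
  have hη1 : 5 * η ≤ 1 / 2 - 1 / A := by
    have := min_le_right (ε / 3) ((1 / 2 - 1 / A) / 5)
    linarith
  have hη2 : 3 * η ≤ ε := by
    have := min_le_left (ε / 3) ((1 / 2 - 1 / A) / 5)
    linarith
  have hinv : 0 < 1 / (2 * A) := by positivity
  refine of_eventually (θ' := 3 / 4 + 1 / (2 * A) + 3 * η) (B := 48 + 2) (by linarith)
    (by positivity) (by norm_num) (P := fun _ y => ∃ k a : ℕ, (Real.log y) ^ A ≤ k ∧ ChainAt y a k) ?_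
  filter_upwards [eventually_params A η hA hη hη1] with X hX
  obtain ⟨hX3, Y, T, u, n0, hn0, hYu, hcount, hYle, hYX, hTY, hmain⟩ := hX
  have hLpos : 0 ≤ Real.log X / 2 := by
    have : 0 ≤ Real.log X := Real.log_nonneg (by exact_mod_cast (by omega : 1 ≤ X))
    linarith
  refine split_small (Z := Y + 2) hX3 (by linarith) (by push_cast; exact hYX) ?_
  have hfin := finite_bound (X := X) (Y := Y) (T := T) (u := u) (n0 := n0) (by omega) hn0 hYu hcount
  have hsub : {y : ℕ | y ≤ X ∧ Y + 2 ≤ y ∧ (X : ℝ) ^ (1 / 2 : ℝ) < y ∧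
        ∃ k a : ℕ, (Real.log y) ^ A ≤ k ∧ ChainAt y a k}
      ⊆ {y : ℕ | y ≤ X ∧ Y + 2 ≤ y ∧ ∃ k a, Y ≤ k ∧ ChainAt y a k} := by
    rintro y ⟨hyX, hyY, hy, k, a, hk, hc⟩
    refine ⟨hyX, hyY, k, a, ?_, hc⟩
    have h1 : (Y : ℝ) ≤ k := by
      calc (Y : ℝ) ≤ (Real.log X / 2) ^ A := hYle
        _ ≤ (Real.log y) ^ A := Real.rpow_le_rpow hLpos (log_ge_half hX3 hy) hA0.le
        _ ≤ k := hk
    exact_mod_cast h1
  have hfinite : {y : ℕ | y ≤ X ∧ Y + 2 ≤ y ∧ ∃ k a, Y ≤ k ∧ ChainAt y a k}.Finite :=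
    (Set.finite_Iic X).subset (fun y hy => hy.1)
  have hn := Set.ncard_le_ncard hsub hfinite
  calc _ ≤ (Set.ncard {y : ℕ | y ≤ X ∧ Y + 2 ≤ y ∧ ∃ k a, Y ≤ k ∧ ChainAt y a k} : ℝ) := by
        exact_mod_cast hn
    _ ≤ _ := hfin
    _ ≤ _ := hmain

/-- chains at bounded height -/
theorem rare_low (A δ ε : ℝ) (hA : 1 < A) (hδ : 0 ≤ δ) (hε : 0 < ε) :
    ∃ C : ℝ, ∀ X : ℕ, 1 ≤ X →
      (Set.ncard {y : ℕ | y ≤ X ∧ ∃ k a : ℕ, (Real.log y) ^ A ≤ k ∧ (a : ℝ) ≤ (X : ℝ) ^ δ ∧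
        ChainAt y a k} : ℝ)
        ≤ C * (X : ℝ) ^ (3 / 4 + 1 / (4 * A) + δ + ε) := by
  have hA0 : 0 < A := by linarith
  have hA2 : 2 < 2 * A := by linarith
  have hgap : 0 < 1 / 2 - 1 / (2 * A) := by
    have : 1 / (2 * A) < 1 / 2 := one_div_lt_one_div_of_lt (by norm_num) hA2
    linarith
  set η := min (ε / 3) ((1 / 2 - 1 / (2 * A)) / 5) with hηdef
  have hη : 0 < η := lt_min (by positivity) (by positivity)
  have hη1 : 5 * η ≤ 1 / 2 - 1 / (2 * A) := by
    have := min_le_right (ε / 3) ((1 / 2 - 1 / (2 * A)) / 5)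
    linarith
  have hη2 : 3 * η ≤ ε := by
    have := min_le_left (ε / 3) ((1 / 2 - 1 / (2 * A)) / 5)
    linarith
  have hinv : 0 < 1 / (4 * A) := by positivity
  have hinv2 : 1 / (2 * (2 * A)) = 1 / (4 * A) := by
    congr 1; ring
  refine of_eventually (θ' := 3 / 4 + 1 / (4 * A) + δ + 3 * η) (B := 96 + 2) (by linarith)
    (by positivity) (by norm_num)
    (P := fun X y => ∃ k a : ℕ, (Real.log y) ^ A ≤ k ∧ (a : ℝ) ≤ (X : ℝ) ^ δ ∧ ChainAt y a k) ?_
  filter_upwards [eventually_params (2 * A) η hA2 hη hη1] with X hX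
  obtain ⟨hX3, Y, T, u, n0, hn0, hYu, hcount, hYle, hYX, hTY, hmain⟩ := hX
  rw [hinv2] at hmain
  have hXr : (3 : ℝ) ≤ X := by exact_mod_cast hX3
  have hXpos : (0 : ℝ) < X := by linarith
  have hLpos : 0 ≤ Real.log X / 2 := by
    have : 0 ≤ Real.log X := Real.log_nonneg (by linarith)
    linarith
  refine split_small (Z := Y + 2) hX3 (by linarith) (by push_cast; exact hYX) ?_
  set N : ℕ := ⌊(X : ℝ) ^ δ⌋₊ + 1 with hN
  have hXδ : (1 : ℝ) ≤ (X : ℝ) ^ δ := Real.one_le_rpow (by linarith) hδ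
  have hNle : (N : ℝ) ≤ 2 * (X : ℝ) ^ δ := by
    have h1 : (⌊(X : ℝ) ^ δ⌋₊ : ℝ) ≤ (X : ℝ) ^ δ := Nat.floor_le (by positivity)
    rw [hN]
    push_cast
    linarith
  have hfin := finite_boundA (X := X) (Y := Y) (T := T) (u := u) (n0 := n0) (N := N) (by omega) hn0
    hYu hcount
  have hsub : {y : ℕ | y ≤ X ∧ Y + 2 ≤ y ∧ (X : ℝ) ^ (1 / 2 : ℝ) < y ∧
        ∃ k a : ℕ, (Real.log y) ^ A ≤ k ∧ (a : ℝ) ≤ (X : ℝ) ^ δ ∧ ChainAt y a k}
      ⊆ {y : ℕ | y ≤ X ∧ Y + 2 ≤ y ∧ ∃ k a, T + 1 ≤ k ∧ a < N ∧ ChainAt y a k} := by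
    rintro y ⟨hyX, hyY, hy, k, a, hk, ha, hc⟩
    refine ⟨hyX, hyY, k, a, ?_, ?_, hc⟩
    · have h1 : ((T + 1 : ℕ) : ℝ) ≤ k := by
        push_cast
        calc (T : ℝ) + 1 ≤ (Y : ℝ) ^ (1 / 2 : ℝ) := hTY
          _ ≤ ((Real.log X / 2) ^ (2 * A)) ^ (1 / 2 : ℝ) :=
              Real.rpow_le_rpow (by positivity) hYle (by norm_num)
          _ = (Real.log X / 2) ^ A := by
              rw [← Real.rpow_mul hLpos]
              congr 1
              ring
          _ ≤ (Real.log y) ^ A := Real.rpow_le_rpow hLpos (log_ge_half hX3 hy) hA0.le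
          _ ≤ k := hk
      exact_mod_cast h1
    · rw [hN]
      exact Nat.lt_succ_of_le (Nat.le_floor ha)
  have hfinite : {y : ℕ | y ≤ X ∧ Y + 2 ≤ y ∧ ∃ k a, T + 1 ≤ k ∧ a < N ∧ ChainAt y a k}.Finite :=
    (Set.finite_Iic X).subset (fun y hy => hy.1)
  have hn := Set.ncard_le_ncard hsub hfinite
  have h48 : (0 : ℝ) ≤ 48 * (X : ℝ) ^ (3 / 4 + 1 / (4 * A) + 3 * η) := by positivity
  calc _ ≤ (Set.ncard {y : ℕ | y ≤ X ∧ Y + 2 ≤ y ∧ ∃ k a, T + 1 ≤ k ∧ a < N ∧ ChainAt y a k} : ℝ) := by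
        exact_mod_cast hn
    _ ≤ N * (48 * X * ((Y / (T + 1)) / n0) ^ u) := hfin
    _ ≤ (2 * (X : ℝ) ^ δ) * (48 * (X : ℝ) ^ (3 / 4 + 1 / (4 * A) + 3 * η)) :=
        mul_le_mul hNle hmain (by positivity) (by positivity)
    _ = 96 * (X : ℝ) ^ (3 / 4 + 1 / (4 * A) + δ + 3 * η) := by
        have h5 : 3 / 4 + 1 / (4 * A) + δ + 3 * η = δ + (3 / 4 + 1 / (4 * A) + 3 * η) := by ring
        rw [h5, Real.rpow_add hXpos δ (3 / 4 + 1 / (4 * A) + 3 * η)]
        ring

/-- **Rarity of long Cunningham chains.**  (i) For `A > 2`, `ε > 0`, the number of `y ≤ X` such that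
some Cunningham chain of length at least `(log y)^A` starts at some `2^a y - 1` (first kind) or
`2^a y + 1` (second kind), `a` arbitrary, is `O(X^(3/4 + 1/(2A) + ε))`.  (ii) For `A > 1`, `δ ≥ 0`,
`ε > 0`, the number of those `y ≤ X` for which this happens with some `a ≤ X^δ` is
`O(X^(3/4 + 1/(4A) + δ + ε))`. -/
theorem result :
    (∀ A ε : ℝ, 2 < A → 0 < ε → ∃ C : ℝ, ∀ X : ℕ, 1 ≤ X →
      (Set.ncard {y : ℕ | y ≤ X ∧ ∃ k a : ℕ, (Real.log y) ^ A ≤ k ∧ ChainAt y a k} : ℝ)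
        ≤ C * (X : ℝ) ^ (3 / 4 + 1 / (2 * A) + ε)) ∧
    (∀ A δ ε : ℝ, 1 < A → 0 ≤ δ → 0 < ε → ∃ C : ℝ, ∀ X : ℕ, 1 ≤ X →
      (Set.ncard {y : ℕ | y ≤ X ∧ ∃ k a : ℕ, (Real.log y) ^ A ≤ k ∧ (a : ℝ) ≤ (X : ℝ) ^ δ ∧
        ChainAt y a k} : ℝ)
        ≤ C * (X : ℝ) ^ (3 / 4 + 1 / (4 * A) + δ + ε)) :=
  ⟨fun A ε hA hε => rare_any A ε hA hε, fun A δ ε hA hδ hε => rare_low A δ ε hA hδ hε⟩

end Pool.Agent.Results.MP_c183ae_nt.RareLongChains
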